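import Pool.Agent.H301L.Param
import Pool.Agent.H301L.Data0
import Pool.Agent.H301L.Data1
import Pool.Agent.H301L.Data2
import Pool.Agent.H301L.Data3
import Pool.Agent.H301L.Data4
import Pool.Agent.H301L.Data5
import Pool.Agent.H301L.Data6
import Pool.Agent.H301L.Data7
import Pool.Agent.H301L.Data8

/-!
The chain of chunk certificates, and the Lerch divisibility for `p = 42447347`.
-/

namespace Pool.Agent.H301L

instance fact_p : Fact (Nat.Prime 42447347) := ⟨by norm_num⟩

theorem size128 : Size 42447347 40742170 128 := by constructor <;> norm_num

theorem size121 : Size 42447347 40742170 121 := by constructor <;> norm_num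

theorem r0 : OK 42447347 40742170 0 1 1 0 0 0 0 := ok_zero (by norm_num) _

theorem r1 : OK 42447347 40742170 331520 5104813 20152743 23357217 40544649 21513304 25767424 :=
  chk_sound (W := 128) (n := 2590) size128 (by norm_num) (by norm_num) r0 c0

theorem r2 : OK 42447347 40742170 663040 10284117 17879074 6636876 37987947 4773586 27500755 :=
  chk_sound (W := 128) (n := 2590) size128 (by norm_num) (by norm_num) r1 c1

theorem r3 : OK 42447347 40742170 994560 39858991 30968444 19677690 18880605 21682226 19091532 :=
  chk_sound (W := 128) (n := 2590) size128 (by norm_num) (by norm_num) r2 c2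

theorem r4 : OK 42447347 40742170 1326080 21711426 37282939 10434129 22840746 16512156 35933277 :=
  chk_sound (W := 128) (n := 2590) size128 (by norm_num) (by norm_num) r3 c3

theorem r5 : OK 42447347 40742170 1657600 30046130 2516932 36275066 16699544 20741756 42189141 :=
  chk_sound (W := 128) (n := 2590) size128 (by norm_num) (by norm_num) r4 c4

theorem r6 : OK 42447347 40742170 1989120 37111032 32183968 2419460 36298031 36031685 28742362 :=
  chk_sound (W := 128) (n := 2590) size128 (by norm_num) (by norm_num) r5 c5

theorem r7 : OK 42447347 40742170 2320640 34331931 28348306 26486162 12237678 37422762 35475118 :=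
  chk_sound (W := 128) (n := 2590) size128 (by norm_num) (by norm_num) r6 c6

theorem r8 : OK 42447347 40742170 2652160 38180505 41107913 1807318 11921192 10502819 26990256 :=
  chk_sound (W := 128) (n := 2590) size128 (by norm_num) (by norm_num) r7 c7

theorem r9 : OK 42447347 40742170 2983680 1129034 17526166 8860098 22065413 9372556 23644831 :=
  chk_sound (W := 128) (n := 2590) size128 (by norm_num) (by norm_num) r8 c8

theorem r10 : OK 42447347 40742170 3315200 6664982 19731650 4006369 27138374 38417867 20143865 :=
  chk_sound (W := 128) (n := 2590) size128 (by norm_num) (by norm_num) r9 c9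

theorem r11 : OK 42447347 40742170 3646720 28007251 39825256 41372349 22109702 40744320 39035971 :=
  chk_sound (W := 128) (n := 2590) size128 (by norm_num) (by norm_num) r10 c10

theorem r12 : OK 42447347 40742170 3978240 30570805 36655911 32122806 34832247 30974208 18756841 :=
  chk_sound (W := 128) (n := 2590) size128 (by norm_num) (by norm_num) r11 c11

theorem r13 : OK 42447347 40742170 4309760 19723454 31344293 640852 16505132 19436045 24852246 :=
  chk_sound (W := 128) (n := 2590) size128 (by norm_num) (by norm_num) r12 c12

theorem r14 : OK 42447347 40742170 4641280 31562960 36093372 9068927 6634616 25374489 38660290 :=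
  chk_sound (W := 128) (n := 2590) size128 (by norm_num) (by norm_num) r13 c13

theorem r15 : OK 42447347 40742170 4972800 10468776 37544535 14539117 16261445 18591823 23820517 :=
  chk_sound (W := 128) (n := 2590) size128 (by norm_num) (by norm_num) r14 c14

theorem r16 : OK 42447347 40742170 5304320 18840582 3872054 38124664 22117418 26516783 26090903 :=
  chk_sound (W := 128) (n := 2590) size128 (by norm_num) (by norm_num) r15 c15

theorem r17 : OK 42447347 40742170 5635840 24615096 23049530 17170138 38701687 23852416 6186193 :=
  chk_sound (W := 128) (n := 2590) size128 (by norm_num) (by norm_num) r16 c16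

theorem r18 : OK 42447347 40742170 5967360 23942746 3460592 28192500 37645922 27273681 40136487 :=
  chk_sound (W := 128) (n := 2590) size128 (by norm_num) (by norm_num) r17 c17

theorem r19 : OK 42447347 40742170 6298880 10505922 24345714 11004693 373093 26717576 11674508 :=
  chk_sound (W := 128) (n := 2590) size128 (by norm_num) (by norm_num) r18 c18

theorem r20 : OK 42447347 40742170 6630400 29925231 36070321 28377625 39106704 16851957 39645391 :=
  chk_sound (W := 128) (n := 2590) size128 (by norm_num) (by norm_num) r19 c19

theorem r21 : OK 42447347 40742170 6961920 12302178 40431210 6395759 24200800 41052846 28252100 :=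
  chk_sound (W := 128) (n := 2590) size128 (by norm_num) (by norm_num) r20 c20

theorem r22 : OK 42447347 40742170 7293440 20111725 37076650 42034855 5155398 41438034 23836336 :=
  chk_sound (W := 128) (n := 2590) size128 (by norm_num) (by norm_num) r21 c21

theorem r23 : OK 42447347 40742170 7624960 3543118 6481385 26187952 8624224 6051739 37964636 :=
  chk_sound (W := 128) (n := 2590) size128 (by norm_num) (by norm_num) r22 c22

theorem r24 : OK 42447347 40742170 7956480 12928193 25868412 15329339 36555458 27046641 3104740 :=
  chk_sound (W := 128) (n := 2590) size128 (by norm_num) (by norm_num) r23 c23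

theorem r25 : OK 42447347 40742170 8288000 18655678 32069531 18559775 8048924 33499545 21130197 :=
  chk_sound (W := 128) (n := 2590) size128 (by norm_num) (by norm_num) r24 c24

theorem r26 : OK 42447347 40742170 8619520 25927383 15707472 10884026 32956146 27985570 39909272 :=
  chk_sound (W := 128) (n := 2590) size128 (by norm_num) (by norm_num) r25 c25

theorem r27 : OK 42447347 40742170 8951040 5823884 18089322 688666 29384604 36749219 19527223 :=
  chk_sound (W := 128) (n := 2590) size128 (by norm_num) (by norm_num) r26 c26

theorem r28 : OK 42447347 40742170 9282560 14046321 10701168 34250423 29308684 27531775 20279311 :=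
  chk_sound (W := 128) (n := 2590) size128 (by norm_num) (by norm_num) r27 c27

theorem r29 : OK 42447347 40742170 9614080 701999 24677665 140504 24030837 35282910 11166434 :=
  chk_sound (W := 128) (n := 2590) size128 (by norm_num) (by norm_num) r28 c28

theorem r30 : OK 42447347 40742170 9945600 41245406 14927367 17316879 5712023 23354687 11367184 :=
  chk_sound (W := 128) (n := 2590) size128 (by norm_num) (by norm_num) r29 c29

theorem r31 : OK 42447347 40742170 10277120 37519470 28867044 12363101 24814502 27163676 29240068 :=
  chk_sound (W := 128) (n := 2590) size128 (by norm_num) (by norm_num) r30 c30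

theorem r32 : OK 42447347 40742170 10608640 20259385 17192393 5674426 27953742 37960910 13011098 :=
  chk_sound (W := 128) (n := 2590) size128 (by norm_num) (by norm_num) r31 c31

theorem r33 : OK 42447347 40742170 10940160 242672 39532013 7280956 7951774 25618079 30776563 :=
  chk_sound (W := 128) (n := 2590) size128 (by norm_num) (by norm_num) r32 c32

theorem r34 : OK 42447347 40742170 11271680 11805488 32831743 28262054 42126659 17656742 6428772 :=
  chk_sound (W := 128) (n := 2590) size128 (by norm_num) (by norm_num) r33 c33

theorem r35 : OK 42447347 40742170 11603200 17921106 2112016 29296561 13581178 7087318 24391665 :=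
  chk_sound (W := 128) (n := 2590) size128 (by norm_num) (by norm_num) r34 c34

theorem r36 : OK 42447347 40742170 11934720 14313674 26981354 5149133 6516087 38184326 30121545 :=
  chk_sound (W := 128) (n := 2590) size128 (by norm_num) (by norm_num) r35 c35

theorem r37 : OK 42447347 40742170 12266240 20671244 27593413 30975561 1720186 10635080 35664763 :=
  chk_sound (W := 128) (n := 2590) size128 (by norm_num) (by norm_num) r36 c36

theorem r38 : OK 42447347 40742170 12597760 3875782 5651214 4363768 4917283 37661844 20273957 :=
  chk_sound (W := 128) (n := 2590) size128 (by norm_num) (by norm_num) r37 c37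

theorem r39 : OK 42447347 40742170 12929280 9428596 405939 9675349 3312794 29663827 15571119 :=
  chk_sound (W := 128) (n := 2590) size128 (by norm_num) (by norm_num) r38 c38

theorem r40 : OK 42447347 40742170 13260800 2879860 34495408 5489797 12013439 11840562 10574502 :=
  chk_sound (W := 128) (n := 2590) size128 (by norm_num) (by norm_num) r39 c39

theorem r41 : OK 42447347 40742170 13592320 17500894 38688385 17598348 34621260 13571971 3264004 :=
  chk_sound (W := 128) (n := 2590) size128 (by norm_num) (by norm_num) r40 c40

theorem r42 : OK 42447347 40742170 13923840 29761310 8006702 32974463 19975277 33018318 35817244 :=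
  chk_sound (W := 128) (n := 2590) size128 (by norm_num) (by norm_num) r41 c41

theorem r43 : OK 42447347 40742170 14255360 33249163 39849218 1991242 14691405 2451801 2834667 :=
  chk_sound (W := 128) (n := 2590) size128 (by norm_num) (by norm_num) r42 c42

theorem r44 : OK 42447347 40742170 14586880 33755073 13216858 37373659 20332943 22717841 11139757 :=
  chk_sound (W := 128) (n := 2590) size128 (by norm_num) (by norm_num) r43 c43

theorem r45 : OK 42447347 40742170 14918400 28213729 28642210 23845688 991260 31276593 16176611 :=
  chk_sound (W := 128) (n := 2590) size128 (by norm_num) (by norm_num) r44 c44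

theorem r46 : OK 42447347 40742170 15249920 9628715 37428246 9589700 2463899 37607784 14458805 :=
  chk_sound (W := 128) (n := 2590) size128 (by norm_num) (by norm_num) r45 c45

theorem r47 : OK 42447347 40742170 15581440 35099705 22016544 17084192 12262818 21422506 22302747 :=
  chk_sound (W := 128) (n := 2590) size128 (by norm_num) (by norm_num) r46 c46

theorem r48 : OK 42447347 40742170 15912960 5091522 39363898 38462179 32871855 26020801 4749516 :=
  chk_sound (W := 128) (n := 2590) size128 (by norm_num) (by norm_num) r47 c47

theorem r49 : OK 42447347 40742170 16244480 35522387 31890450 31004289 13712885 521879 14658020 :=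
  chk_sound (W := 128) (n := 2590) size128 (by norm_num) (by norm_num) r48 c48

theorem r50 : OK 42447347 40742170 16576000 34117284 674923 5152760 6753854 37672194 30976246 :=
  chk_sound (W := 128) (n := 2590) size128 (by norm_num) (by norm_num) r49 c49

theorem r51 : OK 42447347 40742170 16907520 41199952 19022538 35315222 22254252 12120013 41496936 :=
  chk_sound (W := 128) (n := 2590) size128 (by norm_num) (by norm_num) r50 c50

theorem r52 : OK 42447347 40742170 17239040 20548070 24008795 13258655 14826027 27926807 31502047 :=
  chk_sound (W := 128) (n := 2590) size128 (by norm_num) (by norm_num) r51 c51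

theorem r53 : OK 42447347 40742170 17570560 38637778 29230277 3063531 630252 25336081 4317867 :=
  chk_sound (W := 128) (n := 2590) size128 (by norm_num) (by norm_num) r52 c52

theorem r54 : OK 42447347 40742170 17902080 29777759 28605668 2007064 41156852 24114433 41237139 :=
  chk_sound (W := 128) (n := 2590) size128 (by norm_num) (by norm_num) r53 c53

theorem r55 : OK 42447347 40742170 18233600 41465834 34916643 25015405 1059983 20971217 1759189 :=
  chk_sound (W := 128) (n := 2590) size128 (by norm_num) (by norm_num) r54 c54

theorem r56 : OK 42447347 40742170 18565120 2070464 34459460 40116600 30667851 12413279 3662767 :=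
  chk_sound (W := 128) (n := 2590) size128 (by norm_num) (by norm_num) r55 c55

theorem r57 : OK 42447347 40742170 18896640 27034926 36754270 27840036 5785843 4065169 16639899 :=
  chk_sound (W := 128) (n := 2590) size128 (by norm_num) (by norm_num) r56 c56

theorem r58 : OK 42447347 40742170 19228160 31344678 28782824 37016587 25281689 38701767 13243102 :=
  chk_sound (W := 128) (n := 2590) size128 (by norm_num) (by norm_num) r57 c57

theorem r59 : OK 42447347 40742170 19559680 6983607 10346728 17521781 39769452 21424938 715587 :=
  chk_sound (W := 128) (n := 2590) size128 (by norm_num) (by norm_num) r58 c58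

theorem r60 : OK 42447347 40742170 19891200 9159683 41107211 303199 28229375 3418533 15152473 :=
  chk_sound (W := 128) (n := 2590) size128 (by norm_num) (by norm_num) r59 c59

theorem r61 : OK 42447347 40742170 20222720 41950918 5267131 14872086 17044108 37501865 15791648 :=
  chk_sound (W := 128) (n := 2590) size128 (by norm_num) (by norm_num) r60 c60

theorem r62 : OK 42447347 40742170 20554240 14297817 33036414 19486161 5483337 15837477 11889048 :=
  chk_sound (W := 128) (n := 2590) size128 (by norm_num) (by norm_num) r61 c61

theorem r63 : OK 42447347 40742170 20885760 20742232 33019232 12432613 1820932 40922995 37123131 :=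
  chk_sound (W := 128) (n := 2590) size128 (by norm_num) (by norm_num) r62 c62

theorem r64 : OK 42447347 40742170 21217280 11339687 11598485 1623055 30858699 36940860 31293898 :=
  chk_sound (W := 128) (n := 2590) size128 (by norm_num) (by norm_num) r63 c63

theorem r65 : OK 42447347 40742170 21223552 14247070 26726851 15272469 25985732 41553158 35926978 :=
  chk_sound (W := 128) (n := 49) size128 (by norm_num) (by norm_num) r64 c64

theorem r66 : OK 42447347 40742170 21223673 42447346 42447346 1 38337454 7031263 19400042 :=
  chk_sound (W := 121) (n := 1) size121 (by norm_num) (by norm_num) r65 c65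

theorem prime_n : Nat.Prime 21223673 := by norm_num

/-- The divisibility, stated for a variable `p` so that nothing gets evaluated. -/
theorem lerch_divides {p : ℕ} (h : p = 42447347) : (p : ℤ) ^ 3 ∣
    (∑ a ∈ Finset.Icc 1 (p - 1), (a : ℤ) ^ (p - 1)) - p - ((p - 1).factorial : ℤ) := by
  have hf : Fact p.Prime := ⟨by rw [h]; exact fact_p.out⟩
  exact lerch_of_ok (p := p) (n := 21223673) (q2 := 40742170) (s1 := 38337454) (s2 := 7031263)
    (s3 := 19400042) (by rw [h]) prime_n (by norm_num) (by rw [h]; exact r66)
    (by rw [h]; norm_num)

end Pool.Agent.H301L
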