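import Mathlib.Data.Nat.Basic

/-!
Kernel-friendly lane arithmetic used to verify sums over a long orbit of doubling modulo a prime.
-/

namespace Pool.Agent.H301L

/-- One pass of the lane machine: `s` further steps remain. -/
def loop (p q2 n E O K1 K2 MW BIG : ℕ)
    (fin : ℕ → ℕ → ℕ → ℕ → ℕ → ℕ → ℕ → Bool) (s : ℕ) :
    ℕ → ℕ → ℕ → ℕ → ℕ → ℕ → ℕ → Bool :=
  Nat.rec fin (fun s ih Y Q A1 A2 S1 S2 S3 =>
    let Y' := Nat.shiftRight (Nat.add Y (Nat.mul p (Nat.land Y O))) 1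
    let C := Nat.land (Nat.shiftRight E s) O
    let Mk := Nat.mul C 67108863
    let MY := Nat.land Y' Mk
    let MQ := Nat.land Q Mk
    let Qa := Nat.add (Nat.add Q K2) MY
    let Qb := Nat.sub Qa (Nat.mul p (Nat.land (Nat.shiftRight (Nat.add Qa K1) 27) O))
    let Qc := Nat.sub Qb (Nat.mul p (Nat.land (Nat.shiftRight (Nat.add Qb K1) 27) O))
    let y0 := Nat.mod Y MW
    let y1 := Nat.mod Y' MW
    let cm := Nat.mod C p
    let A1' := Nat.mod (Nat.add (Nat.add A1 (Nat.mul n q2)) (Nat.mul y1 cm)) p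
    let A2' := Nat.mod (Nat.add (Nat.add A2 (Nat.mul q2 (Nat.add (Nat.mul 2 A1) (Nat.mul n q2))))
      (Nat.mul y1 (Nat.add (Nat.mul 2 (Nat.add (Nat.mul q2 cm) (Nat.mod MQ p))) (Nat.mod MY p)))) p
    let S1' := Nat.mod (Nat.add S1 A1) p
    let S2' := Nat.mod (Nat.add S2 A2) p
    let S3' := Nat.mod (Nat.add S3 (Nat.mul y0 (Nat.mod Q p))) p
    cond (Nat.ble (Nat.add (Nat.add Y' Qc) (Nat.add (Nat.add A1' A2') (Nat.add (Nat.add S1' S2') S3'))) BIG)
      (ih Y' Qc A1' A2' S1' S2' S3') false) s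

/-- Sum of squares of the lanes, bit by bit. -/
def sqs (O M X : ℕ) (t : ℕ) : ℕ :=
  Nat.rec 0 (fun t ih => Nat.add ih (Nat.mul (Nat.pow 2 t)
    (Nat.mod (Nat.land X (Nat.mul (Nat.land (Nat.shiftRight X t) O) 67108863)) M))) t

/-- The check of one chunk of `n` lanes, each of `W` steps. -/
def chk (p q2 W n a y q s1 s2 s3 a' y' q' s1' s2' s3' Y Q : ℕ) : Bool :=
  let MW := Nat.pow 2 W
  let T := Nat.pow 2 (Nat.mul W n)
  let O := Nat.div (Nat.sub T 1) (Nat.sub MW 1)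
  let K0 := Nat.mul (Nat.sub 67108864 p) O
  let K1 := Nat.mul (Nat.sub 134217728 p) O
  let K2 := Nat.mul q2 O
  let HM := Nat.mul (Nat.sub MW 67108864) O
  let aT := Nat.mul a T
  let E := Nat.div aT p
  cond (Nat.beq (Nat.land Y HM) 0) (
  cond (Nat.beq (Nat.land Q HM) 0) (
  cond (Nat.beq (Nat.land (Nat.add Y K0) HM) 0) (
  cond (Nat.beq (Nat.land (Nat.add Q K0) HM) 0) (
  cond (Nat.ble (Nat.succ Y) T) (
  cond (Nat.ble (Nat.succ Q) T) (
  cond (Nat.ble (Nat.succ y') p) (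
  cond (Nat.ble (Nat.succ q') p) (
  cond (Nat.beq (Nat.mod aT p) a') (
    loop p q2 n E O K1 K2 MW (Nat.mul T 4) (fun Yf Qf _ _ t1 t2 t3 =>
      cond (Nat.beq (Nat.add (Nat.mul Y MW) y') (Nat.add (Nat.mul y T) Yf))
      (cond (Nat.beq (Nat.add (Nat.mul Q MW) q') (Nat.add (Nat.mul q T) Qf))
      (cond (Nat.beq t1 s1') (cond (Nat.beq t2 s2') (Nat.beq t3 s3') false) false) false) false)
      W Y Q (Nat.mod (Nat.mod Q (Nat.sub MW 1)) p) (Nat.mod (sqs O (Nat.sub MW 1) Q 26) p) s1 s2 s3)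
  false) false) false) false) false) false) false) false) false

/-- Unpack a hint holding two lane vectors interleaved in 64-bit halves (two half-blocks). -/
def up (n H sh : ℕ) : ℕ :=
  let h := Nat.div n 2
  let O := Nat.div (Nat.sub (Nat.pow 2 (Nat.mul 128 h)) 1) (Nat.sub (Nat.pow 2 128) 1)
  let M := Nat.mul 67108863 O
  let G := Nat.shiftRight H sh
  Nat.add (Nat.land G M) (Nat.mul (Nat.land (Nat.shiftRight G 64) M) (Nat.pow 2 (Nat.mul 128 h)))

end Pool.Agent.H301L
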