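import Pool.Agent.H301L.Sums

/-!
Soundness of the chunk check as a whole.
-/

namespace Pool.Agent.H301L

open Finset

/-- The scalars `a, y, q, s1, s2, s3` describe the sequences up to exponent `K`. -/
structure OK (p q2 K a y q s1 s2 s3 : ℕ) : Prop where
  ha : a = 2 ^ K % p
  hy : y = yv p K
  hq : q = qv p q2 K
  h1 : (s1 : ZMod p) = ∑ k ∈ range K, qsz p q2 k
  h2 : (s2 : ZMod p) = ∑ k ∈ range K, qsz p q2 k ^ 2
  h3 : (s3 : ZMod p) = ∑ k ∈ range K, qsz p q2 k * ysz p k

theorem cond_true {b x : Bool} (h : cond b x false = true) : b = true ∧ x = true := by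
  cases b
  · exact absurd h (by simp)
  · exact ⟨rfl, h⟩

theorem beq_true {a b : ℕ} (h : Nat.beq a b = true) : a = b := Nat.eq_of_beq_eq_true h

theorem ble_true {a b : ℕ} (h : Nat.ble a b = true) : a ≤ b := Nat.le_of_ble_eq_true h

theorem land_high {W n : ℕ} (hW : 29 ≤ W) {v : ℕ → ℕ} (hv : ∀ j < n, v j < 2 ^ W)
    (h : pack W n v &&& ((2 ^ W - 67108864) * pack W n (fun _ => 1)) = 0) :
    ∀ j < n, v j < 2 ^ 26 := by
  have hWW : 2 ^ 29 ≤ 2 ^ W := Nat.pow_le_pow_right (by norm_num) (by omega)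
  rw [pack_mul, land_pack hv (fun j _ => by omega)] at h
  have h0 : pack W n (fun j => v j &&& (2 ^ W - 67108864) * 1) = pack W n (fun _ => 0) := by
    rw [h, pack_eq_sum]; simp
  have h1 := pack_inj (fun j hj => lt_of_le_of_lt Nat.and_le_left (hv j hj))
    (fun j _ => by positivity) h0
  intro j hj
  have h2 : v j &&& (2 ^ W - 67108864) = 0 := by simpa using h1 j hj
  by_contra hcon
  have hge : 2 ^ 26 ≤ v j := by omega
  obtain ⟨i, hi1, hi2⟩ := Nat.exists_ge_and_testBit_of_ge_two_pow hge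
  have hiW : i < W := by
    by_contra hc
    have : v j < 2 ^ i := lt_of_lt_of_le (hv j hj) (Nat.pow_le_pow_right (by norm_num) (by omega))
    rw [Nat.testBit_lt_two_pow this] at hi2
    exact absurd hi2 (by simp)
  have h3 : (v j &&& (2 ^ W - 67108864)).testBit i = false := by rw [h2]; simp
  rw [Nat.testBit_and, hi2, Bool.true_and] at h3
  have e : 2 ^ W - 67108864 = 2 ^ 26 * (2 ^ (W - 26) - 1) := by
    rw [Nat.mul_sub, mul_one, ← pow_add]
    congr 2
    omega
  rw [e, Nat.testBit_two_pow_mul, Nat.testBit_two_pow_sub_one] at h3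
  simp only [Bool.and_eq_false_iff, decide_eq_false_iff_not] at h3
  omega

theorem lanes_lt {W n p X : ℕ} (hW : 29 ≤ W) (hp : 0 < p) (hp26 : p < 2 ^ 26)
    (hX : X < 2 ^ (W * n))
    (h1 : X &&& ((2 ^ W - 67108864) * pack W n (fun _ => 1)) = 0)
    (h2 : (X + (67108864 - p) * pack W n (fun _ => 1)) &&&
      ((2 ^ W - 67108864) * pack W n (fun _ => 1)) = 0) :
    ∃ v : ℕ → ℕ, (∀ j < n, v j < p) ∧ X = pack W n v := by
  have hWW : 2 ^ 29 ≤ 2 ^ W := Nat.pow_le_pow_right (by norm_num) (by omega)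
  obtain ⟨v, hv, rfl⟩ := exists_pack W n X hX
  have h3 := land_high hW (fun j _ => hv j) h1
  rw [pack_mul W n (67108864 - p), pack_add] at h2
  have h4 := land_high hW (v := fun j => v j + (67108864 - p) * 1)
    (fun j hj => by have := h3 j hj; omega) h2
  exact ⟨v, fun j hj => by have := h4 j hj; omega, rfl⟩

/-- The chain of lanes. -/
theorem chain {W n X y y' : ℕ} {v w : ℕ → ℕ} (hn : 0 < n) (hv : ∀ j < n, v j < 2 ^ W)
    (hw : ∀ j < n, w j < 2 ^ W) (hy : y < 2 ^ W) (hy' : y' < 2 ^ W) (hX : X = pack W n v)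
    (h : X * 2 ^ W + y' = y * 2 ^ (W * n) + pack W n w) :
    v (n - 1) = y ∧ w 0 = y' ∧ ∀ j, j + 1 < n → v j = w (j + 1) := by
  have h1 : pack W (n + 1) (fun j => if j = 0 then y' else v (j - 1)) =
      pack W (n + 1) (fun j => if j = n then y else w j) := by
    rw [pack, pack_top]
    have e1 : pack W n (fun j => if j + 1 = 0 then y' else v (j + 1 - 1)) = X := by
      rw [hX]
      exact pack_congr fun j _ => by simp
    have e2 : pack W n (fun j => if j = n then y else w j) = pack W n w :=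
      pack_congr fun j hj => by rw [if_neg (by omega)]
    rw [e1, e2, if_pos rfl, if_pos rfl]
    linarith
  have h2 := pack_inj (W := W) (n := n + 1)
    (u := fun j => if j = 0 then y' else v (j - 1)) (v := fun j => if j = n then y else w j)
    (fun j hj => by
      split_ifs with h
      · exact hy'
      · exact hv _ (by omega))
    (fun j hj => by
      split_ifs with h
      · exact hy
      · exact hw _ (by omega)) h1
  refine ⟨?_, ?_, ?_⟩
  · have := h2 n (by omega)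
    simpa [show n ≠ 0 by omega] using this
  · have := h2 0 (by omega)
    simp only [if_true] at this
    rw [if_neg (by omega)] at this
    exact this.symm
  · intro j hj
    have := h2 (j + 1) (by omega)
    simp only [Nat.add_eq_zero_iff, one_ne_zero, and_false, if_false, Nat.add_sub_cancel] at this
    rw [if_neg (by omega)] at this
    exact this

theorem lev_lt {p q2 : ℕ} (hp : 0 < p) (β : ℕ → ℕ) (s : ℕ) : ∀ y q, y < p → q < p →
    (lev p q2 β s y q).1 < p ∧ (lev p q2 β s y q).2 < p := by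
  induction s with
  | zero => intro y q hy hq; exact ⟨hy, hq⟩
  | succ s ih => intro y q hy hq; exact ih _ _ (yst_lt hy) (qst_lt hp)

theorem sum_blocks {M : Type*} [AddCommMonoid M] (g : ℕ → M) (K W n : ℕ) :
    ∑ j ∈ range n, ∑ t ∈ range W, g (K + W * j + t) = ∑ m ∈ range (W * n), g (K + m) := by
  induction n with
  | zero => simp
  | succ n ih =>
    rw [Finset.sum_range_succ, ih, mul_add, mul_one, Finset.sum_range_add]
    congr 1
    exact Finset.sum_congr rfl fun t _ => by rw [add_assoc]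

theorem sum_lanes {M : Type*} [AddCommMonoid M] (g : ℕ → M) (K W n : ℕ) :
    ∑ t ∈ range W, ∑ j ∈ range n, g (ex K W n j + 0 + t) = ∑ m ∈ range (W * n), g (K + m) := by
  rw [Finset.sum_comm, ← sum_blocks, ← Finset.sum_range_reflect]
  apply Finset.sum_congr rfl
  intro j hj
  have hj := Finset.mem_range.1 hj
  apply Finset.sum_congr rfl
  intro t _
  unfold ex
  congr 1
  rw [add_zero]
  congr 3
  omega

theorem chk_sound {p q2 W n K a y q s1 s2 s3 a' y' q' s1' s2' s3' Y Q : ℕ} [Fact p.Prime]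
    (hs : Size p q2 W) (hn : 0 < n) (hnW : n * 2 ^ 26 < 2 ^ W - 1)
    (hin : OK p q2 K a y q s1 s2 s3)
    (h : chk p q2 W n a y q s1 s2 s3 a' y' q' s1' s2' s3' Y Q = true) :
    OK p q2 (K + W * n) a' y' q' s1' s2' s3' := by
  have hp0 : 0 < p := by have := hs.pos; omega
  have hW := hs.hW
  have h26 := hs.lt26
  have hWW : 2 ^ 26 ≤ 2 ^ W := Nat.pow_le_pow_right (by norm_num) (by omega)
  have hO := ones_eq W n (by omega)
  unfold chk at h
  obtain ⟨c1, h⟩ := cond_true h
  obtain ⟨c2, h⟩ := cond_true h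
  obtain ⟨c3, h⟩ := cond_true h
  obtain ⟨c4, h⟩ := cond_true h
  obtain ⟨c5, h⟩ := cond_true h
  obtain ⟨c6, h⟩ := cond_true h
  obtain ⟨c7, h⟩ := cond_true h
  obtain ⟨c8, h⟩ := cond_true h
  obtain ⟨c9, h⟩ := cond_true h
  have c1 := beq_true c1
  have c2 := beq_true c2
  have c3 := beq_true c3
  have c4 := beq_true c4
  have c5 : Y < 2 ^ (W * n) := ble_true c5
  have c6 : Q < 2 ^ (W * n) := ble_true c6
  have c7 : y' < p := ble_true c7
  have c8 : q' < p := ble_true c8
  have c9 : a * 2 ^ (W * n) % p = a' := beq_true c9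
  have d1 : Y &&& ((2 ^ W - 67108864) * ((2 ^ (W * n) - 1) / (2 ^ W - 1))) = 0 := c1
  have d2 : Q &&& ((2 ^ W - 67108864) * ((2 ^ (W * n) - 1) / (2 ^ W - 1))) = 0 := c2
  have d3 : (Y + (67108864 - p) * ((2 ^ (W * n) - 1) / (2 ^ W - 1))) &&&
    ((2 ^ W - 67108864) * ((2 ^ (W * n) - 1) / (2 ^ W - 1))) = 0 := c3
  have d4 : (Q + (67108864 - p) * ((2 ^ (W * n) - 1) / (2 ^ W - 1))) &&&
    ((2 ^ W - 67108864) * ((2 ^ (W * n) - 1) / (2 ^ W - 1))) = 0 := c4
  rw [hO] at d1 d2 d3 d4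
  obtain ⟨y0, hy0, eY⟩ := lanes_lt hW hp0 h26 c5 d1 d3
  obtain ⟨q0, hq0, eQ⟩ := lanes_lt hW hp0 h26 c6 d2 d4
  have h' : loop p q2 n (a * 2 ^ (W * n) / p) ((2 ^ (W * n) - 1) / (2 ^ W - 1))
      ((134217728 - p) * ((2 ^ (W * n) - 1) / (2 ^ W - 1)))
      (q2 * ((2 ^ (W * n) - 1) / (2 ^ W - 1))) (2 ^ W) (2 ^ (W * n) * 4)
      (fun Yf Qf _ _ t1 t2 t3 =>
        cond (Nat.beq (Y * 2 ^ W + y') (y * 2 ^ (W * n) + Yf))
        (cond (Nat.beq (Q * 2 ^ W + q') (q * 2 ^ (W * n) + Qf))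
        (cond (Nat.beq t1 s1') (cond (Nat.beq t2 s2') (Nat.beq t3 s3') false) false) false) false)
      W Y Q (Q % (2 ^ W - 1) % p)
      (sqs ((2 ^ (W * n) - 1) / (2 ^ W - 1)) (2 ^ W - 1) Q 26 % p) s1 s2 s3 = true := h
  rw [hO] at h'
  -- first pass: the lanes
  have h1 := h'
  rw [eY, eQ] at h1
  obtain ⟨B1, B2, T1, T2, T3, hf⟩ := phase1 hs _ W y0 q0 hy0 hq0 _ _ _ _ _ h1
  obtain ⟨f1, hf⟩ := cond_true hf
  obtain ⟨f2, hf⟩ := cond_true hf
  have f1 := beq_true f1
  have f2 := beq_true f2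
  have hlev := fun j (hj : j < n) => lev_lt (q2 := q2) hp0
    (lbit W (a * 2 ^ (W * n) / p) j) W (y0 j) (q0 j) (hy0 j hj) (hq0 j hj)
  have hyp : y < p := by rw [hin.hy]; exact yv_lt _
  have hqp : q < p := by rw [hin.hq]; exact qv_lt _
  have hpW : p < 2 ^ W := by omega
  obtain ⟨g1, g2, g3⟩ := chain hn (fun j hj => (hy0 j hj).trans hpW)
    (fun j hj => (hlev j hj).1.trans hpW) (hyp.trans hpW) (c7.trans hpW) rfl f1
  obtain ⟨k1, k2, k3⟩ := chain hn (fun j hj => (hq0 j hj).trans hpW)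
    (fun j hj => (hlev j hj).2.trans hpW) (hqp.trans hpW) (c8.trans hpW) rfl f2
  have hbit : ∀ j < n, ∀ s < W, lbit W (a * 2 ^ (W * n) / p) j s =
      cb p (ex K W n j + (W - 1 - s)) := by
    intro j hj s hs'
    rw [hin.ha]
    exact lbit_eq hp0 hj hs'
  have hlc : ∀ j < n, y0 j = yv p (ex K W n j) → q0 j = qv p q2 (ex K W n j) →
      lev p q2 (lbit W (a * 2 ^ (W * n) / p) j) W (y0 j) (q0 j) =
      (yv p (ex K W n j + W), qv p q2 (ex K W n j + W)) := by
    intro j hj e1 e2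
    rw [e1, e2]
    exact lev_correct hs.odd hs.pos _ W _ (hbit j hj)
  have hall : ∀ m < n, y0 (n - 1 - m) = yv p (ex K W n (n - 1 - m)) ∧
      q0 (n - 1 - m) = qv p q2 (ex K W n (n - 1 - m)) := by
    intro m
    induction m with
    | zero =>
      intro _
      have e : ex K W n (n - 1 - 0) = K := by
        unfold ex
        have : n - 1 - (n - 1 - 0) = 0 := by omega
        rw [this, mul_zero, add_zero]
      rw [e]
      exact ⟨g1.trans hin.hy, k1.trans hin.hq⟩
    | succ m ih =>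
      intro hm
      obtain ⟨i1, i2⟩ := ih (by omega)
      have e0 : n - 1 - (m + 1) + 1 = n - 1 - m := by omega
      have e1 := g3 (n - 1 - (m + 1)) (by omega)
      have e2 := k3 (n - 1 - (m + 1)) (by omega)
      rw [e0] at e1 e2
      have e3 := hlc (n - 1 - m) (by omega) i1 i2
      rw [e3] at e1 e2
      have e4 : ex K W n (n - 1 - m) + W = ex K W n (n - 1 - (m + 1)) := by
        unfold ex
        have a1 : n - 1 - (n - 1 - m) = m := by omega
        have a2 : n - 1 - (n - 1 - (m + 1)) = m + 1 := by omega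
        rw [a1, a2]
        ring
      rw [e4] at e1 e2
      exact ⟨e1, e2⟩
  have hlane : ∀ j < n, y0 j = yv p (ex K W n j) ∧ q0 j = qv p q2 (ex K W n j) := by
    intro j hj
    have := hall (n - 1 - j) (by omega)
    rwa [show n - 1 - (n - 1 - j) = j by omega] at this
  have e0 : ex K W n 0 + W = K + W * n := by
    unfold ex
    obtain ⟨m, rfl⟩ : ∃ m, n = m + 1 := ⟨n - 1, by omega⟩
    have : m + 1 - 1 - 0 = m := by omega
    rw [this]
    ring
  have hout := hlc 0 hn (hlane 0 hn).1 (hlane 0 hn).2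
  rw [e0] at hout
  rw [hout] at g2 k2
  -- second pass: the sums
  have eY' : Y = pack W n (fun j => yv p (ex K W n j + 0)) := by
    rw [eY]; exact pack_congr fun j hj => (hlane j hj).1
  have eQ' : Q = pack W n (fun j => qv p q2 (ex K W n j + 0)) := by
    rw [eQ]; exact pack_congr fun j hj => (hlane j hj).2
  have hA1 : ((Q % (2 ^ W - 1) % p : ℕ) : ZMod p) =
      ∑ j ∈ range n, qsz p q2 (ex K W n j + 0) := by
    rw [ZMod.natCast_mod, eQ', pack_mod_sum]
    · push_cast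
      exact Finset.sum_congr rfl fun j _ => cast_qv _
    · refine lt_of_le_of_lt ?_ hnW
      calc ∑ j ∈ range n, qv p q2 (ex K W n j + 0) ≤ ∑ _j ∈ range n, 2 ^ 26 :=
            Finset.sum_le_sum fun j _ => ((qv_lt _).trans h26).le
        _ = n * 2 ^ 26 := by simp
  have hA2 : ((sqs (pack W n (fun _ => 1)) (2 ^ W - 1) Q 26 % p : ℕ) : ZMod p) =
      ∑ j ∈ range n, qsz p q2 (ex K W n j + 0) ^ 2 := by
    rw [ZMod.natCast_mod, eQ', sqs_pack hW (fun j _ => (qv_lt _).trans h26) hnW]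
    push_cast
    exact Finset.sum_congr rfl fun j _ => by rw [cast_qv]
  have h2 := h'
  rw [hin.ha] at h2
  have h3 : loop p q2 n ((2 ^ K % p) * 2 ^ (W * n) / p) (pack W n (fun _ => 1))
      ((134217728 - p) * pack W n (fun _ => 1))
      (q2 * pack W n (fun _ => 1)) (2 ^ W) (2 ^ (W * n) * 4)
      (fun Yf Qf _ _ t1 t2 t3 =>
        cond (Nat.beq (Y * 2 ^ W + y') (y * 2 ^ (W * n) + Yf))
        (cond (Nat.beq (Q * 2 ^ W + q') (q * 2 ^ (W * n) + Qf))
        (cond (Nat.beq t1 s1') (cond (Nat.beq t2 s2') (Nat.beq t3 s3') false) false) false) false)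
      W (pack W n (fun j => yv p (ex K W n j + 0)))
      (pack W n (fun j => qv p q2 (ex K W n j + 0))) (Q % (2 ^ W - 1) % p)
      (sqs (pack W n (fun _ => 1)) (2 ^ W - 1) Q 26 % p) s1 s2 s3 = true := by
    rw [← eY', ← eQ']
    exact h2
  obtain ⟨Yf, Qf, B1', B2', U1, U2, U3, hf', u1, u2, u3⟩ :=
    phase3 hs hn _ W 0 (by omega) _ _ _ _ _ hA1 hA2 h3
  obtain ⟨_, hf'⟩ := cond_true hf'
  obtain ⟨_, hf'⟩ := cond_true hf'
  obtain ⟨v1, hf'⟩ := cond_true hf'
  obtain ⟨v2, v3⟩ := cond_true hf'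
  have v1 := beq_true v1
  have v2 := beq_true v2
  have v3 := beq_true v3
  refine ⟨?_, g2.symm, k2.symm, ?_, ?_, ?_⟩
  · rw [← c9, hin.ha, pow_add, Nat.mul_mod, Nat.mod_mod, ← Nat.mul_mod]
  · rw [← v1, u1, sum_lanes (fun k => qsz p q2 k), hin.h1, Finset.sum_range_add]
  · rw [← v2, u2, sum_lanes (fun k => qsz p q2 k ^ 2), hin.h2, Finset.sum_range_add]
  · rw [← v3, u3, sum_lanes (fun k => qsz p q2 k * ysz p k), hin.h3, Finset.sum_range_add]

end Pool.Agent.H301L
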