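import Mathlib

/-!
Packed lane vectors: `pack W n v` holds the numbers `v 0, …, v (n-1)` in lanes of `W` bits.
-/

namespace Pool.Agent.H301L

open Finset

/-- The number whose lanes of `W` bits are `v 0, …, v (n-1)`. -/
def pack (W : ℕ) : ℕ → (ℕ → ℕ) → ℕ
  | 0, _ => 0
  | n + 1, v => v 0 + 2 ^ W * pack W n (fun j => v (j + 1))

theorem pack_eq_sum (W n : ℕ) (v : ℕ → ℕ) :
    pack W n v = ∑ j ∈ range n, v j * 2 ^ (W * j) := by
  induction n generalizing v with
  | zero => simp [pack]
  | succ n ih =>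
    rw [pack, ih, Finset.sum_range_succ', Finset.mul_sum, add_comm]
    congr 1
    · apply Finset.sum_congr rfl
      intro j _
      rw [mul_add, mul_one, pow_add]
      ring
    · simp

theorem pack_top (W n : ℕ) (v : ℕ → ℕ) :
    pack W (n + 1) v = pack W n v + v n * 2 ^ (W * n) := by
  rw [pack_eq_sum, pack_eq_sum, Finset.sum_range_succ]

theorem pack_congr {W n : ℕ} {u v : ℕ → ℕ} (h : ∀ j < n, u j = v j) :
    pack W n u = pack W n v := by
  rw [pack_eq_sum, pack_eq_sum]
  exact Finset.sum_congr rfl fun j hj => by rw [h j (Finset.mem_range.1 hj)]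

theorem pack_add (W n : ℕ) (u v : ℕ → ℕ) :
    pack W n u + pack W n v = pack W n (fun j => u j + v j) := by
  simp only [pack_eq_sum, add_mul, Finset.sum_add_distrib]

theorem pack_mul (W n k : ℕ) (v : ℕ → ℕ) :
    k * pack W n v = pack W n (fun j => k * v j) := by
  simp only [pack_eq_sum, Finset.mul_sum, mul_assoc]

theorem pack_mul' (W n k : ℕ) (v : ℕ → ℕ) :
    pack W n v * k = pack W n (fun j => v j * k) := by
  rw [mul_comm, pack_mul]
  exact pack_congr fun j _ => mul_comm _ _

theorem pack_sub {W n : ℕ} {u v : ℕ → ℕ} (h : ∀ j < n, v j ≤ u j) :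
    pack W n u - pack W n v = pack W n (fun j => u j - v j) := by
  have : pack W n u = pack W n (fun j => u j - v j) + pack W n v := by
    rw [pack_add]
    exact pack_congr fun j hj => (Nat.sub_add_cancel (h j hj)).symm
  rw [this, Nat.add_sub_cancel]

theorem pack_lt {W n : ℕ} {v : ℕ → ℕ} (h : ∀ j < n, v j < 2 ^ W) :
    pack W n v < 2 ^ (W * n) := by
  induction n generalizing v with
  | zero => simp [pack]
  | succ n ih =>
    have h1 := ih (v := fun j => v (j + 1)) (fun j hj => h (j + 1) (by omega))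
    have h0 := h 0 (by omega)
    rw [pack, mul_add, mul_one, pow_add]
    have h2 : pack W n (fun j => v (j + 1)) + 1 ≤ 2 ^ (W * n) := h1
    calc v 0 + 2 ^ W * pack W n (fun j => v (j + 1))
        < 2 ^ W + 2 ^ W * pack W n (fun j => v (j + 1)) := by omega
      _ = 2 ^ W * (pack W n (fun j => v (j + 1)) + 1) := by ring
      _ ≤ 2 ^ W * 2 ^ (W * n) := Nat.mul_le_mul_left _ h2
      _ = 2 ^ (W * n) * 2 ^ W := by ring

theorem pack_inj {W n : ℕ} {u v : ℕ → ℕ} (hu : ∀ j < n, u j < 2 ^ W) (hv : ∀ j < n, v j < 2 ^ W)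
    (h : pack W n u = pack W n v) : ∀ j < n, u j = v j := by
  induction n generalizing u v with
  | zero => intro j hj; omega
  | succ n ih =>
    rw [pack, pack] at h
    have hp : 0 < 2 ^ W := by positivity
    have h0 : u 0 = v 0 := by
      have := congrArg (· % 2 ^ W) h
      simpa [Nat.add_mul_mod_self_left, Nat.mod_eq_of_lt (hu 0 (by omega)),
        Nat.mod_eq_of_lt (hv 0 (by omega))] using this
    have h1 : pack W n (fun j => u (j + 1)) = pack W n (fun j => v (j + 1)) := by
      rw [h0] at h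
      exact Nat.eq_of_mul_eq_mul_left hp (Nat.add_left_cancel h)
    have h2 := ih (u := fun j => u (j + 1)) (v := fun j => v (j + 1))
      (fun j hj => hu (j + 1) (by omega)) (fun j hj => hv (j + 1) (by omega)) h1
    intro j hj
    cases j with
    | zero => exact h0
    | succ j => exact h2 j (by omega)

theorem exists_pack (W n X : ℕ) (h : X < 2 ^ (W * n)) :
    ∃ v : ℕ → ℕ, (∀ j, v j < 2 ^ W) ∧ X = pack W n v := by
  induction n generalizing X with
  | zero =>
    refine ⟨fun _ => 0, fun _ => by positivity, ?_⟩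
    simp at h
    simp [pack, h]
  | succ n ih =>
    have h1 : X / 2 ^ W < 2 ^ (W * n) := by
      apply Nat.div_lt_of_lt_mul
      rw [← pow_add]
      calc X < 2 ^ (W * (n + 1)) := h
        _ = 2 ^ (W + W * n) := by congr 1; ring
    obtain ⟨v, hv, hX⟩ := ih _ h1
    refine ⟨fun j => if j = 0 then X % 2 ^ W else v (j - 1), ?_, ?_⟩
    · intro j
      dsimp only
      split_ifs
      · exact Nat.mod_lt _ (by positivity)
      · exact hv _
    · rw [pack]
      simp only [if_true, Nat.add_eq_zero_iff, one_ne_zero, and_false, if_false,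
        Nat.add_sub_cancel]
      rw [← hX]
      exact (Nat.mod_add_div X (2 ^ W)).symm

theorem ones_eq (W n : ℕ) (hW : 1 ≤ W) :
    (2 ^ (W * n) - 1) / (2 ^ W - 1) = pack W n (fun _ => 1) := by
  rw [pack_eq_sum, pow_mul]
  have h2 : 2 ≤ 2 ^ W := by
    calc 2 = 2 ^ 1 := rfl
      _ ≤ 2 ^ W := Nat.pow_le_pow_right (by norm_num) hW
  rw [← Nat.geomSum_eq h2 n]
  apply Finset.sum_congr rfl
  intro j _
  rw [one_mul, pow_mul]

/-- Bitwise conjunction acts lane by lane on two-part numbers. -/
theorem land_two_part (W x X y Y : ℕ) (hx : x < 2 ^ W) (hy : y < 2 ^ W) :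
    (x + 2 ^ W * X) &&& (y + 2 ^ W * Y) = (x &&& y) + 2 ^ W * (X &&& Y) := by
  apply Nat.eq_of_testBit_eq
  intro i
  have hxy : x &&& y < 2 ^ W := lt_of_le_of_lt Nat.and_le_left hx
  rw [Nat.testBit_and, add_comm x, add_comm y, add_comm (x &&& y),
    Nat.testBit_two_pow_mul_add _ hx, Nat.testBit_two_pow_mul_add _ hy,
    Nat.testBit_two_pow_mul_add _ hxy]
  split_ifs <;> rw [Nat.testBit_and]

theorem land_pack {W n : ℕ} {u v : ℕ → ℕ} (hu : ∀ j < n, u j < 2 ^ W)
    (hv : ∀ j < n, v j < 2 ^ W) :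
    pack W n u &&& pack W n v = pack W n (fun j => u j &&& v j) := by
  induction n generalizing u v with
  | zero => simp [pack]
  | succ n ih =>
    rw [pack, pack, pack, land_two_part W _ _ _ _ (hu 0 (by omega)) (hv 0 (by omega)),
      ih (fun j hj => hu (j + 1) (by omega)) (fun j hj => hv (j + 1) (by omega))]

theorem and_one_lane (W x X Y : ℕ) (hW : 1 ≤ W) (hx : x < 2 ^ W) :
    (x + 2 ^ W * X) &&& (1 + 2 ^ W * Y) = x % 2 + 2 ^ W * (X &&& Y) := by
  have h1 : 1 < 2 ^ W := Nat.one_lt_two_pow (by omega)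
  rw [land_two_part W x X 1 Y hx h1, Nat.and_one_is_mod]

/-- Reading one bit of each lane. -/
theorem bits_pack (W n s X : ℕ) (hW : 1 ≤ W) :
    (X >>> s) &&& pack W n (fun _ => 1) = pack W n (fun j => X / 2 ^ (W * j + s) % 2) := by
  induction n generalizing X with
  | zero => simp [pack]
  | succ n ih =>
    rw [pack, pack]
    have e : X >>> s = (X >>> s) % 2 ^ W + 2 ^ W * ((X / 2 ^ W) >>> s) := by
      have h1 : (X / 2 ^ W) >>> s = (X >>> s) / 2 ^ W := by
        rw [Nat.shiftRight_eq_div_pow, Nat.shiftRight_eq_div_pow, Nat.div_div_eq_div_mul,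
          Nat.div_div_eq_div_mul, mul_comm]
      rw [h1]
      exact (Nat.mod_add_div _ _).symm
    rw [e, and_one_lane W _ _ _ hW (Nat.mod_lt _ (by positivity)), ih]
    congr 1
    · rw [Nat.shiftRight_eq_div_pow, mul_zero, zero_add]
      exact Nat.mod_mod_of_dvd _ (dvd_pow_self 2 (by omega))
    · congr 1
      apply pack_congr
      intro j _
      rw [Nat.div_div_eq_div_mul, ← pow_add]
      congr 3
      ring

theorem lane_bit {W n : ℕ} {v : ℕ → ℕ} (hv : ∀ j < n, v j < 2 ^ W) {j s : ℕ} (hj : j < n)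
    (hs : s < W) : pack W n v / 2 ^ (W * j + s) % 2 = v j / 2 ^ s % 2 := by
  induction n generalizing v j with
  | zero => omega
  | succ n ih =>
    rw [pack]
    cases j with
    | zero =>
      rw [mul_zero, zero_add]
      obtain ⟨r, rfl⟩ : ∃ r, W = s + 1 + r := ⟨W - (s + 1), by omega⟩
      have : v 0 + 2 ^ (s + 1 + r) * pack (s + 1 + r) n (fun j => v (j + 1))
          = v 0 + 2 ^ s * (2 * (2 ^ r * pack (s + 1 + r) n (fun j => v (j + 1)))) := by
        rw [pow_add, pow_add]; ring
      rw [this, Nat.add_mul_div_left _ _ (by positivity), Nat.add_mul_mod_self_left]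
    | succ j =>
      have h0 := hv 0 (by omega)
      have e : W * (j + 1) + s = W + (W * j + s) := by ring
      rw [e, pow_add, ← Nat.div_div_eq_div_mul, Nat.add_mul_div_left _ _ (by positivity),
        Nat.div_eq_of_lt h0, zero_add]
      exact ih (v := fun j => v (j + 1)) (fun j hj => hv (j + 1) (by omega)) (by omega)

end Pool.Agent.H301L
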