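import Pool.Agent.H301L.Theory

/-!
From a verified state at exponent `n = (p - 1) / 2` to the Lerch divisibility.
-/

namespace Pool.Agent.H301L

open Finset

variable {p : ℕ} [hp : Fact p.Prime]

theorem cast_pow_mod (k : ℕ) : ((2 ^ k % p : ℕ) : ZMod p) = 2 ^ k := by
  rw [ZMod.natCast_mod]
  push_cast
  rfl

theorem pow_mod_pos (hp2 : 2 < p) (k : ℕ) : 0 < 2 ^ k % p := by
  rcases Nat.eq_zero_or_pos (2 ^ k % p) with h | h
  · have h1 := cast_pow_mod (p := p) k
    rw [h] at h1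
    exact absurd h1.symm (by simpa using pow_ne_zero k (two_ne hp2))
  · exact h

/-- Splitting the residues along the powers of two. -/
theorem sum_residues {M : Type*} [AddCommMonoid M] {n : ℕ} (hpn : p = 2 * n + 1)
    (hn : n.Prime) (hn3 : 3 < n) (h2n : (2 : ZMod p) ^ n = -1) (H : ℕ → M) :
    ∑ a ∈ Icc 1 (p - 1), H a = ∑ k ∈ range n, (H (2 ^ k % p) + H (p - 2 ^ k % p)) := by
  have hp2 : 2 < p := by omega
  have hpp : 0 < p := by omega
  have hord : orderOf (2 : ZMod p) = 2 * n := by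
    apply orderOf_eq_of_pow_and_pow_div_prime (by omega)
    · rw [mul_comm, pow_mul, h2n]
      norm_num
    · intro l hl hdvd h
      rcases (Nat.Prime.dvd_mul hl).1 hdvd with h1 | h1
      · have hl2 : l = 2 := (Nat.prime_dvd_prime_iff_eq hl Nat.prime_two).1 h1
        rw [hl2, Nat.mul_div_cancel_left _ (by norm_num), h2n] at h
        have h3 : (2 : ZMod p) = 0 := by linear_combination -h
        exact two_ne hp2 h3
      · have hln : l = n := (Nat.prime_dvd_prime_iff_eq hl hn).1 h1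
        rw [hln, Nat.mul_div_cancel _ (by omega)] at h
        have h3 : ((3 : ℕ) : ZMod p) = 0 := by
          push_cast
          linear_combination h
        rw [ZMod.natCast_eq_zero_iff] at h3
        exact absurd (Nat.le_of_dvd (by norm_num) h3) (by omega)
  have hinj : Set.InjOn (fun k => 2 ^ k % p) (range (2 * n) : Finset ℕ) := by
    intro i hi j hj hij
    have h1 := pow_injOn_Iio_orderOf (x := (2 : ZMod p))
    rw [hord] at h1
    apply h1
    · simpa using hi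
    · simpa using hj
    · show (2 : ZMod p) ^ i = 2 ^ j
      rw [← cast_pow_mod i, ← cast_pow_mod j]
      exact congrArg _ hij
  have himg : (range (2 * n)).image (fun k => 2 ^ k % p) = Icc 1 (p - 1) := by
    apply Finset.eq_of_subset_of_card_le
    · intro a ha
      obtain ⟨k, _, rfl⟩ := Finset.mem_image.1 ha
      rw [Finset.mem_Icc]
      have h1 := pow_mod_pos hp2 k
      have h2 := Nat.mod_lt (2 ^ k) hpp
      omega
    · rw [Finset.card_image_of_injOn hinj, Finset.card_range, Nat.card_Icc]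
      omega
  rw [← himg, Finset.sum_image hinj, two_mul, Finset.sum_range_add, Finset.sum_add_distrib]
  congr 1
  apply Finset.sum_congr rfl
  intro k _
  congr 1
  have h1 := pow_mod_pos hp2 k
  have h2 := Nat.mod_lt (2 ^ k) hpp
  have h3 : ((2 ^ (n + k) % p : ℕ) : ZMod p) = ((p - 2 ^ k % p : ℕ) : ZMod p) := by
    rw [cast_pow_mod, Nat.cast_sub h2.le, cast_pow_mod, pow_add, h2n]
    simp
  rw [ZMod.natCast_eq_natCast_iff'] at h3
  rw [Nat.mod_mod, Nat.mod_eq_of_lt (by omega : p - 2 ^ k % p < p)] at h3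
  exact h3

theorem inv_two_pow {n : ℕ} (h2n : (2 : ZMod p) ^ n = -1) : (2 : ZMod p)⁻¹ ^ n = -1 := by
  rw [inv_pow, h2n, inv_neg, inv_one]

theorem sum_ysz {n : ℕ} (hp2 : 2 < p) (h2n : (2 : ZMod p) ^ n = -1) :
    ∑ k ∈ range n, ysz p k = 4 := by
  have h := geom_sum_mul ((2 : ZMod p)⁻¹) n
  rw [inv_two_pow h2n] at h
  have h2 : (2 : ZMod p) * 2⁻¹ = 1 := mul_inv_cancel₀ (two_ne hp2)
  unfold ysz
  linear_combination (-2) * h + (∑ k ∈ range n, (2 : ZMod p)⁻¹ ^ k) * h2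

theorem sum_ysz_sq {n : ℕ} (hp3 : 3 < p) (h2n : (2 : ZMod p) ^ n = -1) :
    ∑ k ∈ range n, ysz p k ^ 2 = 0 := by
  have h := geom_sum_mul ((2 : ZMod p)⁻¹ ^ 2) n
  have e : ((2 : ZMod p)⁻¹ ^ 2) ^ n = 1 := by
    rw [← pow_mul, mul_comm, pow_mul, inv_two_pow h2n]
    norm_num
  rw [e, sub_self] at h
  have h2 : (2 : ZMod p) * 2⁻¹ = 1 := mul_inv_cancel₀ (two_ne (by omega))
  rcases mul_eq_zero.1 h with h | h
  · rw [← h]
    apply Finset.sum_congr rfl
    intro k _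
    unfold ysz
    rw [← pow_mul, ← pow_mul, mul_comm]
  · exfalso
    have h3 : ((3 : ℕ) : ZMod p) = 0 := by
      push_cast
      linear_combination (-4) * h + (2 * (2 : ZMod p)⁻¹ + 1) * h2
    rw [ZMod.natCast_eq_zero_iff] at h3
    exact absurd (Nat.le_of_dvd (by norm_num) h3) (by omega)

theorem q2_eq {q2 n : ℕ} (hp2 : 2 < p) (hodd : p % 2 = 1) (hn0 : (n : ZMod p) ≠ 0)
    (h2n : 2 ^ n % p = p - 1) (hq : qsz p q2 n = 1) : (Fq p 2 : ZMod p) = q2 := by
  obtain ⟨r, hr⟩ : ∃ r : ℕ, (Fq p 2 : ZMod p) = r :=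
    ⟨(Fq p 2 : ZMod p).val, (ZMod.natCast_zmod_val _).symm⟩
  have h1 := Fq_mod hp2 hr n
  rw [h2n] at h1
  have h2 : (Fq p ((p - 1 : ℕ) : ℤ) : ZMod p) = 1 := by
    have h := Fq_add (p := p) (a := -1) (t := 1) (by simp)
    have e : (-1 : ℤ) + p * 1 = ((p - 1 : ℕ) : ℤ) := by
      rw [Nat.cast_sub (by omega)]
      push_cast
      ring
    rw [e, Fq_neg hodd, Fq_one] at h
    rw [h]
    push_cast
    rw [inv_neg, inv_one]
    ring
  rw [h2] at h1
  unfold qsz at h1 hq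
  have h3 : (n : ZMod p) * ((r : ZMod p) - q2) = 0 := by linear_combination -h1 - hq
  rcases mul_eq_zero.1 h3 with h | h
  · exact absurd h hn0
  · rw [hr]
    linear_combination h

/-- The main reduction. -/
theorem lerch_of_ok {n q2 s1 s2 s3 : ℕ} (hpn : p = 2 * n + 1) (hn : n.Prime) (hn3 : 3 < n)
    (hok : OK p q2 n (2 * n) (2 * n) 1 s1 s2 s3)
    (hnum : (2 * s2 + 2 * s3 + (2 * s1 + 4) ^ 2) % p = (2 * (2 * s1 + 4)) % p) :
    (p : ℤ) ^ 3 ∣ (∑ a ∈ Icc 1 (p - 1), (a : ℤ) ^ (p - 1)) - p - ((p - 1).factorial : ℤ) := by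
  have hp2 : 2 < p := by omega
  have hodd : p % 2 = 1 := by omega
  have h2n' : 2 ^ n % p = p - 1 := by
    rw [← hok.ha]
    omega
  have h2n : (2 : ZMod p) ^ n = -1 := by
    rw [← cast_pow_mod n, h2n', Nat.cast_sub (by omega)]
    simp
  have hn0 : (n : ZMod p) ≠ 0 := by
    intro h
    rw [ZMod.natCast_eq_zero_iff] at h
    exact absurd (Nat.le_of_dvd (by omega) h) (by omega)
  have hqn : qsz p q2 n = 1 := by
    rw [← cast_qv, ← hok.hq, Nat.cast_one]
  have hq2 := q2_eq hp2 hodd hn0 h2n' hqn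
  have e1 : ((∑ a ∈ Icc 1 (p - 1), Fq p (a : ℤ) : ℤ) : ZMod p) = 2 * s1 + 4 := by
    rw [Int.cast_sum, sum_residues hpn hn hn3 h2n, hok.h1]
    have : ∀ k ∈ range n, ((Fq p ((2 ^ k % p : ℕ) : ℤ) : ZMod p) +
        (Fq p ((p - 2 ^ k % p : ℕ) : ℤ) : ZMod p)) = 2 * qsz p q2 k + ysz p k := by
      intro k _
      rw [Fq_mod hp2 hq2, Fq_compl hodd hp2 hq2]
      ring
    rw [Finset.sum_congr rfl this, Finset.sum_add_distrib, sum_ysz hp2 h2n, Finset.mul_sum]
  have e2 : ((∑ a ∈ Icc 1 (p - 1), Fq p (a : ℤ) ^ 2 : ℤ) : ZMod p) = 2 * s2 + 2 * s3 := by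
    rw [Int.cast_sum, sum_residues hpn hn hn3 h2n, hok.h2, hok.h3]
    have : ∀ k ∈ range n, (((Fq p ((2 ^ k % p : ℕ) : ℤ) ^ 2 : ℤ) : ZMod p) +
        ((Fq p ((p - 2 ^ k % p : ℕ) : ℤ) ^ 2 : ℤ) : ZMod p)) =
        2 * qsz p q2 k ^ 2 + 2 * (qsz p q2 k * ysz p k) + ysz p k ^ 2 := by
      intro k _
      rw [Int.cast_pow, Int.cast_pow, Fq_mod hp2 hq2, Fq_compl hodd hp2 hq2]
      ring
    rw [Finset.sum_congr rfl this, Finset.sum_add_distrib, Finset.sum_add_distrib,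
      sum_ysz_sq (by omega) h2n, Finset.mul_sum, Finset.mul_sum, add_zero]
  apply lerch_criterion hp2 (fun a => Fq p (a : ℤ))
  · intro a ha
    rw [Finset.mem_Icc] at ha
    apply Fq_spec
    rw [Int.cast_natCast]
    intro h
    rw [ZMod.natCast_eq_zero_iff] at h
    exact absurd (Nat.le_of_dvd (by omega) h) (by omega)
  · rw [e1, e2]
    have h := (ZMod.natCast_eq_natCast_iff' _ _ p).2 hnum
    push_cast at h
    linear_combination h

theorem ok_zero (hp2 : 2 < p) (q2 : ℕ) : OK p q2 0 1 1 0 0 0 0 := by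
  haveI : Fact (1 < p) := ⟨by omega⟩
  refine ⟨?_, ?_, ?_, by simp, by simp, by simp⟩
  · rw [pow_zero, Nat.mod_eq_of_lt (by omega)]
  · unfold yv ysz
    rw [pow_zero, ZMod.val_one]
  · unfold qv qsz
    rw [pow_zero, Nat.div_eq_of_lt (by omega)]
    simp

end Pool.Agent.H301L
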