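import Pool.Agent.H301L.Steps

/-!
Soundness of the chunk check: first the lanes, then the sums.
-/

namespace Pool.Agent.H301L

open Finset

/-- Evolution of a single lane; `β s` is the bit used when `s` steps remain afterwards. -/
def lev (p q2 : ℕ) (β : ℕ → ℕ) : ℕ → ℕ → ℕ → ℕ × ℕ
  | 0, y, q => (y, q)
  | s + 1, y, q => lev p q2 β s (yst p y) (qst p q2 (β s) (yst p y) q)

/-- The bit of lane `j` used when `s` steps remain afterwards. -/
def lbit (W E j s : ℕ) : ℕ := E / 2 ^ (W * j + s) % 2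

theorem lbit_lt (W E j s : ℕ) : lbit W E j s < 2 := Nat.mod_lt _ (by norm_num)

theorem qst_lt {p q2 b y q : ℕ} (hp : 0 < p) : qst p q2 b y q < p := Nat.mod_lt _ hp

/-- The size hypotheses used throughout. -/
structure Size (p q2 W : ℕ) : Prop where
  odd : p % 2 = 1
  pos : 2 < p
  lt26 : p < 2 ^ 26
  lt27 : 3 * p < 2 ^ 27
  q2lt : q2 < p
  hW : 29 ≤ W

theorem phase1 {p q2 W n E MW BIG : ℕ} (hs : Size p q2 W)
    (fin : ℕ → ℕ → ℕ → ℕ → ℕ → ℕ → ℕ → Bool) (s : ℕ) :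
    ∀ (y q : ℕ → ℕ), (∀ j < n, y j < p) → (∀ j < n, q j < p) → ∀ A1 A2 S1 S2 S3,
    loop p q2 n E (pack W n (fun _ => 1)) ((134217728 - p) * pack W n (fun _ => 1))
      (q2 * pack W n (fun _ => 1)) MW BIG fin s (pack W n y) (pack W n q) A1 A2 S1 S2 S3 = true →
    ∃ B1 B2 T1 T2 T3, fin (pack W n (fun j => (lev p q2 (lbit W E j) s (y j) (q j)).1))
      (pack W n (fun j => (lev p q2 (lbit W E j) s (y j) (q j)).2)) B1 B2 T1 T2 T3 = true := by
  induction s with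
  | zero =>
    intro y q _ _ A1 A2 S1 S2 S3 h
    exact ⟨A1, A2, S1, S2, S3, h⟩
  | succ s ih =>
    intro y q hy hq A1 A2 S1 S2 S3 h
    have h' := loop_succ _ _ _ _ _ _ _ _ _ _ _ _ _ _ _ _ _ _ h
    have eC : vC E s (pack W n (fun _ => 1)) = pack W n (fun j => lbit W E j s) :=
      bits_pack W n s E (by have := hs.hW; omega)
    have eY := vY_pack (W := W) (n := n) hs.odd (by have := hs.hW; omega) hs.lt26 hy
    have eQ := vQ_pack (W := W) (n := n) (p := p) (q2 := q2) hs.hW (by have := hs.pos; omega)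
      hs.lt27 hs.lt26 hs.q2lt (y := fun j => yst p (y j)) (b := fun j => lbit W E j s) (q := q)
      (fun j hj => yst_lt (hy j hj)) (fun j _ => lbit_lt _ _ _ _) hq
    rw [eC, eY, eQ] at h'
    exact ih _ _ (fun j hj => yst_lt (hy j hj))
      (fun j _ => qst_lt (by have := hs.pos; omega)) _ _ _ _ _ h'

section seq

variable (p q2 : ℕ)

/-- Powers of one half. -/
noncomputable def ysz (k : ℕ) : ZMod p := (2 : ZMod p)⁻¹ ^ k

/-- The additive sequence. -/
noncomputable def qsz (k : ℕ) : ZMod p :=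
  (k : ZMod p) * (q2 : ZMod p) + ((2 ^ k / p : ℕ) : ZMod p) * (2 : ZMod p)⁻¹ ^ k

/-- Canonical representatives. -/
noncomputable def yv (k : ℕ) : ℕ := (ysz p k).val

/-- Canonical representatives. -/
noncomputable def qv (k : ℕ) : ℕ := (qsz p q2 k).val

/-- The bits of the expansion of `1/p`. -/
def cb (k : ℕ) : ℕ := 2 * (2 ^ k % p) / p

variable {p q2}

theorem cb_lt (hp : 0 < p) (k : ℕ) : cb p k < 2 := by
  unfold cb
  apply Nat.div_lt_of_lt_mul
  have := Nat.mod_lt (2 ^ k) hp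
  omega

theorem pow_div_succ (hp : 0 < p) (k : ℕ) : 2 ^ (k + 1) / p = 2 * (2 ^ k / p) + cb p k := by
  unfold cb
  have h := Nat.div_add_mod (2 ^ k) p
  have : 2 ^ (k + 1) = p * (2 * (2 ^ k / p)) + 2 * (2 ^ k % p) := by
    rw [pow_succ]
    nlinarith
  rw [this, Nat.mul_add_div hp]

variable [Fact p.Prime]

theorem two_ne (hs : 2 < p) : (2 : ZMod p) ≠ 0 := by
  intro h
  have h2 : ((2 : ℕ) : ZMod p) = 0 := by exact_mod_cast h
  rw [ZMod.natCast_eq_zero_iff] at h2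
  exact absurd (Nat.le_of_dvd (by norm_num) h2) (by omega)

theorem ysz_succ (hs : 2 < p) (k : ℕ) : 2 * ysz p (k + 1) = ysz p k := by
  unfold ysz
  rw [pow_succ]
  have := two_ne hs
  field_simp

theorem qsz_succ (hs : 2 < p) (k : ℕ) :
    qsz p q2 (k + 1) = qsz p q2 k + q2 + cb p k * ysz p (k + 1) := by
  have h := ysz_succ hs k
  unfold qsz
  rw [pow_div_succ (by omega) k]
  unfold ysz at *
  rw [← h]
  push_cast
  ring

theorem yv_lt (k : ℕ) : yv p k < p := ZMod.val_lt _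

theorem qv_lt (k : ℕ) : qv p q2 k < p := ZMod.val_lt _

theorem cast_yv (k : ℕ) : ((yv p k : ℕ) : ZMod p) = ysz p k := ZMod.natCast_zmod_val _

theorem cast_qv (k : ℕ) : ((qv p q2 k : ℕ) : ZMod p) = qsz p q2 k := ZMod.natCast_zmod_val _

theorem eq_of_cast {a b : ℕ} (ha : a < p) (hb : b < p) (h : (a : ZMod p) = b) : a = b := by
  rw [ZMod.natCast_eq_natCast_iff'] at h
  rwa [Nat.mod_eq_of_lt ha, Nat.mod_eq_of_lt hb] at h

theorem cast_yst (hp : p % 2 = 1) (y : ℕ) : (2 : ZMod p) * (yst p y : ℕ) = y := by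
  have h := two_mul_yst hp y
  have h2 := congrArg (fun x : ℕ => (x : ZMod p)) h
  simp only [Nat.cast_add, Nat.cast_mul, CharP.cast_eq_zero, zero_mul, add_zero] at h2
  exact_mod_cast h2.symm

theorem yst_yv (hp : p % 2 = 1) (hs : 2 < p) (k : ℕ) : yst p (yv p k) = yv p (k + 1) := by
  apply eq_of_cast (yst_lt (yv_lt k)) (yv_lt _)
  apply mul_left_cancel₀ (two_ne hs)
  rw [cast_yst hp, cast_yv, cast_yv, ysz_succ hs]

theorem qst_qv (hs : 2 < p) (k : ℕ) :
    qst p q2 (cb p k) (yv p (k + 1)) (qv p q2 k) = qv p q2 (k + 1) := by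
  apply eq_of_cast (qst_lt (by omega)) (qv_lt _)
  unfold qst
  rw [ZMod.natCast_mod]
  push_cast
  rw [cast_yv, cast_qv, cast_qv, qsz_succ hs]

theorem lev_correct (hp : p % 2 = 1) (hs : 2 < p) (β : ℕ → ℕ) (S : ℕ) : ∀ k,
    (∀ s < S, β s = cb p (k + (S - 1 - s))) →
    lev p q2 β S (yv p k) (qv p q2 k) = (yv p (k + S), qv p q2 (k + S)) := by
  induction S with
  | zero => intro k _; rfl
  | succ S ih =>
    intro k h
    rw [lev, h S (by omega), show k + (S + 1 - 1 - S) = k by omega, yst_yv hp hs, qst_qv hs,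
      ih (k + 1)]
    · rw [show k + 1 + S = k + (S + 1) by ring]
    · intro s hs'
      rw [h s (by omega)]
      congr 1
      omega

/-- Bits of the quotient. -/
theorem quot_bit (hp : 0 < p) (K M m : ℕ) (hm : m < M) :
    (2 ^ K % p) * 2 ^ M / p / 2 ^ (M - 1 - m) % 2 = cb p (K + m) := by
  have e1 : (2 ^ K % p) * 2 ^ M = (2 ^ K % p) * 2 ^ m * 2 * 2 ^ (M - 1 - m) := by
    have e0 : (2 : ℕ) ^ M = 2 ^ m * 2 * 2 ^ (M - 1 - m) := by
      rw [← pow_succ, ← pow_add]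
      congr 1
      omega
    rw [e0]
    ring
  rw [Nat.div_div_eq_div_mul, mul_comm p, ← Nat.div_div_eq_div_mul, e1,
    Nat.mul_div_cancel _ (by positivity)]
  have h := Nat.div_add_mod ((2 ^ K % p) * 2 ^ m) p
  have e2 : (2 ^ K % p) * 2 ^ m * 2 =
      p * (2 * ((2 ^ K % p) * 2 ^ m / p)) + 2 * ((2 ^ K % p) * 2 ^ m % p) := by
    nlinarith
  rw [e2, Nat.mul_add_div hp, Nat.mul_add_mod]
  have e3 : (2 ^ K % p) * 2 ^ m % p = 2 ^ (K + m) % p := by
    rw [pow_add, Nat.mul_mod, Nat.mod_mod, ← Nat.mul_mod]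
  rw [e3]
  exact Nat.mod_eq_of_lt (cb_lt hp _)

theorem lbit_eq (hp : 0 < p) {W n K j s : ℕ} (hj : j < n) (hs : s < W) :
    lbit W ((2 ^ K % p) * 2 ^ (W * n) / p) j s = cb p (K + W * (n - 1 - j) + (W - 1 - s)) := by
  unfold lbit
  obtain ⟨d, rfl⟩ : ∃ d, n = j + 1 + d := ⟨n - (j + 1), by omega⟩
  have e0 : j + 1 + d - 1 - j = d := by omega
  rw [e0]
  have h1 : W * (j + 1 + d) = W * j + W + W * d := by ring
  have h2 : W * j + s = W * (j + 1 + d) - 1 - (W * d + (W - 1 - s)) := by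
    rw [h1]; omega
  rw [h2, quot_bit hp K _ _ (by rw [h1]; omega)]
  congr 1
  ring

end seq

end Pool.Agent.H301L
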