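import Pool.Agent.H301L.Check
import Pool.Agent.H301L.Lanes

/-!
The lane machine performs the expected arithmetic in every lane.
-/

namespace Pool.Agent.H301L

open Finset

/-- Halving modulo an odd `p`. -/
def yst (p y : ℕ) : ℕ := (y + p * (y % 2)) / 2

/-- One update of the additive lane. -/
def qst (p q2 b y q : ℕ) : ℕ := (q + q2 + b * y) % p

/-- Vector form of `yst`. -/
def vY (p O Y : ℕ) : ℕ := (Y + p * (Y &&& O)) >>> 1

/-- Vector of bits. -/
def vC (E s O : ℕ) : ℕ := (E >>> s) &&& O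

/-- Masking by a vector of bits. -/
def vM (X C : ℕ) : ℕ := X &&& (C * 67108863)

/-- Vector form of a conditional subtraction. -/
def vcs (p O K1 X : ℕ) : ℕ := X - p * (((X + K1) >>> 27) &&& O)

/-- Vector form of `qst`. -/
def vQ (p O K1 K2 Y' C Q : ℕ) : ℕ := vcs p O K1 (vcs p O K1 (Q + K2 + vM Y' C))

theorem loop_zero (p q2 n E O K1 K2 MW BIG : ℕ)
    (fin : ℕ → ℕ → ℕ → ℕ → ℕ → ℕ → ℕ → Bool) (Y Q A1 A2 S1 S2 S3 : ℕ) :
    loop p q2 n E O K1 K2 MW BIG fin 0 Y Q A1 A2 S1 S2 S3 = fin Y Q A1 A2 S1 S2 S3 := rfl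

theorem loop_succ (p q2 n E O K1 K2 MW BIG : ℕ)
    (fin : ℕ → ℕ → ℕ → ℕ → ℕ → ℕ → ℕ → Bool) (s Y Q A1 A2 S1 S2 S3 : ℕ)
    (h : loop p q2 n E O K1 K2 MW BIG fin (s + 1) Y Q A1 A2 S1 S2 S3 = true) :
    loop p q2 n E O K1 K2 MW BIG fin s (vY p O Y) (vQ p O K1 K2 (vY p O Y) (vC E s O) Q)
      ((A1 + n * q2 + (vY p O Y % MW) * (vC E s O % p)) % p)
      ((A2 + q2 * (2 * A1 + n * q2) + (vY p O Y % MW) *
        (2 * (q2 * (vC E s O % p) + vM Q (vC E s O) % p) + vM (vY p O Y) (vC E s O) % p)) % p)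
      ((S1 + A1) % p) ((S2 + A2) % p) ((S3 + (Y % MW) * (Q % p)) % p) = true := by
  have h2 : cond (Nat.ble ((vY p O Y + vQ p O K1 K2 (vY p O Y) (vC E s O) Q) +
      (((A1 + n * q2 + (vY p O Y % MW) * (vC E s O % p)) % p +
      (A2 + q2 * (2 * A1 + n * q2) + (vY p O Y % MW) *
        (2 * (q2 * (vC E s O % p) + vM Q (vC E s O) % p) + vM (vY p O Y) (vC E s O) % p)) % p) +
      (((S1 + A1) % p + (S2 + A2) % p) + (S3 + (Y % MW) * (Q % p)) % p))) BIG)
      (loop p q2 n E O K1 K2 MW BIG fin s (vY p O Y) (vQ p O K1 K2 (vY p O Y) (vC E s O) Q)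
      ((A1 + n * q2 + (vY p O Y % MW) * (vC E s O % p)) % p)
      ((A2 + q2 * (2 * A1 + n * q2) + (vY p O Y % MW) *
        (2 * (q2 * (vC E s O % p) + vM Q (vC E s O) % p) + vM (vY p O Y) (vC E s O) % p)) % p)
      ((S1 + A1) % p) ((S2 + A2) % p) ((S3 + (Y % MW) * (Q % p)) % p)) false = true := h
  revert h2
  cases Nat.ble _ BIG with
  | false => intro h2; exact absurd h2 (by simp)
  | true => intro h2; exact h2

section lanes

variable {p q2 W n : ℕ}

theorem yst_lt {y : ℕ} (hy : y < p) : yst p y < p := by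
  unfold yst
  have : y % 2 < 2 := Nat.mod_lt _ (by norm_num)
  have h2 : p * (y % 2) ≤ p := by
    calc p * (y % 2) ≤ p * 1 := Nat.mul_le_mul_left _ (by omega)
      _ = p := mul_one p
  omega

theorem two_mul_yst (hp : p % 2 = 1) (y : ℕ) : y + p * (y % 2) = 2 * yst p y := by
  unfold yst
  have : (y + p * (y % 2)) % 2 = 0 := by
    rw [Nat.add_mod, Nat.mul_mod, hp]
    rcases Nat.mod_two_eq_zero_or_one y with h | h <;> simp [h]
  omega

theorem vY_pack (hp : p % 2 = 1) (hW : 27 ≤ W) (hp26 : p < 2 ^ 26) {y : ℕ → ℕ}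
    (hy : ∀ j < n, y j < p) :
    vY p (pack W n (fun _ => 1)) (pack W n y) = pack W n (fun j => yst p (y j)) := by
  have hWW : 2 ^ 26 ≤ 2 ^ W := Nat.pow_le_pow_right (by norm_num) (by omega)
  have h1 : 1 < 2 ^ W := Nat.one_lt_two_pow (by omega)
  unfold vY
  rw [land_pack (fun j hj => (hy j hj).trans (by omega)) (fun _ _ => h1), pack_mul, pack_add]
  have : pack W n (fun j => y j + p * (y j &&& 1)) = 2 * pack W n (fun j => yst p (y j)) := by
    rw [pack_mul]
    apply pack_congr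
    intro j _
    rw [Nat.and_one_is_mod, two_mul_yst hp]
  rw [this, Nat.shiftRight_eq_div_pow, pow_one, Nat.mul_div_cancel_left _ (by norm_num)]

theorem vM_pack (hW : 27 ≤ W) {x b : ℕ → ℕ} (hx : ∀ j < n, x j < 2 ^ 26)
    (hb : ∀ j < n, b j < 2) :
    vM (pack W n x) (pack W n b) = pack W n (fun j => b j * x j) := by
  have hWW : 2 ^ 26 ≤ 2 ^ W := Nat.pow_le_pow_right (by norm_num) (by omega)
  unfold vM
  rw [pack_mul', land_pack (fun j hj => (hx j hj).trans_le hWW)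
    (fun j hj => by have := hb j hj; omega)]
  apply pack_congr
  intro j hj
  have h1 := hb j hj
  have h2 := hx j hj
  have h3 : b j = 0 ∨ b j = 1 := by omega
  rcases h3 with h | h
  · simp [h]
  · rw [h, one_mul, one_mul]
    have : (67108863 : ℕ) = 2 ^ 26 - 1 := by norm_num
    rw [this, Nat.and_two_pow_sub_one_eq_mod, Nat.mod_eq_of_lt h2]

theorem cs_lane {t : ℕ} (ht : t < 2 ^ 27) (hp0 : 0 < p) (hp : p < 2 ^ 27) :
    (t + (134217728 - p)) / 2 ^ 27 % 2 = if p ≤ t then 1 else 0 := by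
  split_ifs with h
  · have : (t + (134217728 - p)) / 2 ^ 27 = 1 := by
      apply Nat.div_eq_of_lt_le <;> omega
    rw [this]
  · have : (t + (134217728 - p)) / 2 ^ 27 = 0 := by
      apply Nat.div_eq_of_lt; omega
    rw [this]

theorem vcs_pack (hW : 29 ≤ W) (hp0 : 0 < p) (hp : p < 2 ^ 27) {t : ℕ → ℕ}
    (ht : ∀ j < n, t j < 2 ^ 27) :
    vcs p (pack W n (fun _ => 1)) ((134217728 - p) * pack W n (fun _ => 1)) (pack W n t) =
      pack W n (fun j => t j - p * (if p ≤ t j then 1 else 0)) := by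
  have hWW : 2 ^ 29 ≤ 2 ^ W := Nat.pow_le_pow_right (by norm_num) (by omega)
  unfold vcs
  rw [pack_mul, pack_add, bits_pack _ _ _ _ (by omega)]
  have e : pack W n (fun j => pack W n (fun j => t j + (134217728 - p) * 1) /
      2 ^ (W * j + 27) % 2) = pack W n (fun j => if p ≤ t j then 1 else 0) := by
    apply pack_congr
    intro j hj
    rw [lane_bit (v := fun j => t j + (134217728 - p) * 1) _ hj (by omega), mul_one,
      cs_lane (ht j hj) hp0 hp]
    intro i hi
    have := ht i hi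
    omega
  rw [e, pack_mul, pack_sub]
  intro j hj
  split_ifs <;> omega

theorem cs_cs {t : ℕ} (_hp0 : 0 < p) (ht : t < 3 * p) :
    (t - p * (if p ≤ t then 1 else 0)) -
      p * (if p ≤ (t - p * (if p ≤ t then 1 else 0)) then 1 else 0) = t % p := by
  by_cases h1 : p ≤ t
  · rw [if_pos h1, mul_one]
    by_cases h2 : p ≤ t - p
    · rw [if_pos h2, mul_one, Nat.mod_eq_sub_mod h1, Nat.mod_eq_sub_mod h2,
        Nat.mod_eq_of_lt (by omega)]
    · rw [if_neg h2, mul_zero, Nat.sub_zero, Nat.mod_eq_sub_mod h1, Nat.mod_eq_of_lt (by omega)]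
  · rw [if_neg h1, mul_zero, Nat.sub_zero, if_neg h1, mul_zero, Nat.sub_zero,
      Nat.mod_eq_of_lt (by omega)]

theorem vQ_pack (hW : 29 ≤ W) (hp0 : 0 < p) (hp3 : 3 * p < 2 ^ 27) (hp26 : p < 2 ^ 26)
    (hq2 : q2 < p) {y b q : ℕ → ℕ} (hy : ∀ j < n, y j < p) (hb : ∀ j < n, b j < 2)
    (hq : ∀ j < n, q j < p) :
    vQ p (pack W n (fun _ => 1)) ((134217728 - p) * pack W n (fun _ => 1))
      (q2 * pack W n (fun _ => 1)) (pack W n y) (pack W n b) (pack W n q) =
      pack W n (fun j => qst p q2 (b j) (y j) (q j)) := by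
  unfold vQ
  have hlt : ∀ j < n, q j + q2 * 1 + b j * y j < 3 * p := by
    intro j hj
    have h1 := hy j hj
    have h2 := hb j hj
    have h3 := hq j hj
    have h4 : b j = 0 ∨ b j = 1 := by omega
    rcases h4 with h | h <;> rw [h] <;> omega
  have e : pack W n q + q2 * pack W n (fun _ => 1) + pack W n (fun j => b j * y j) =
      pack W n (fun j => q j + q2 * 1 + b j * y j) := by
    rw [pack_mul W n q2, pack_add, pack_add]
  rw [vM_pack (by omega) (fun j hj => (hy j hj).trans hp26) hb, e,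
    vcs_pack hW hp0 (by omega) (fun j hj => (hlt j hj).trans hp3),
    vcs_pack hW hp0 (by omega) (fun j hj => lt_of_le_of_lt (Nat.sub_le _ _)
      ((hlt j hj).trans hp3))]
  apply pack_congr
  intro j hj
  rw [cs_cs hp0 (hlt j hj), mul_one]
  rfl

end lanes

end Pool.Agent.H301L
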