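import Pool.Agent.H301L.Sound

/-!
Soundness of the chunk check: the accumulated sums.
-/

namespace Pool.Agent.H301L

open Finset

theorem pack_mod {W n : ℕ} {v : ℕ → ℕ} (hn : 0 < n) (hv : v 0 < 2 ^ W) :
    pack W n v % 2 ^ W = v 0 := by
  obtain ⟨m, rfl⟩ : ∃ m, n = m + 1 := ⟨n - 1, by omega⟩
  rw [pack, Nat.add_mul_mod_self_left, Nat.mod_eq_of_lt hv]

theorem pack_mod_sum {W n : ℕ} {v : ℕ → ℕ} (hv : ∑ j ∈ range n, v j < 2 ^ W - 1) :
    pack W n v % (2 ^ W - 1) = ∑ j ∈ range n, v j := by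
  have h1 : 2 ^ W ≡ 1 [MOD 2 ^ W - 1] := by
    have h0 : 1 ≤ 2 ^ W := Nat.one_le_two_pow
    have : 2 ^ W = (2 ^ W - 1) * 1 + 1 := by omega
    calc 2 ^ W = (2 ^ W - 1) * 1 + 1 := this
      _ ≡ 1 [MOD 2 ^ W - 1] := by
        simp [Nat.ModEq]
  have h2 : pack W n v ≡ ∑ j ∈ range n, v j [MOD 2 ^ W - 1] := by
    rw [pack_eq_sum]
    apply Nat.ModEq.sum
    intro j _
    have : 2 ^ (W * j) ≡ 1 [MOD 2 ^ W - 1] := by
      rw [pow_mul]
      simpa using h1.pow j
    simpa using this.mul_left (v j)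
  rw [h2, Nat.mod_eq_of_lt hv]

theorem sum_bits (v T : ℕ) : ∑ t ∈ range T, 2 ^ t * (v / 2 ^ t % 2) = v % 2 ^ T := by
  induction T with
  | zero => simp [Nat.mod_one]
  | succ T ih => rw [Finset.sum_range_succ, ih, Nat.mod_pow_succ]

theorem sqs_eq (O M X T : ℕ) : sqs O M X T =
    ∑ t ∈ range T, 2 ^ t * (vM X ((X >>> t) &&& O) % M) := by
  induction T with
  | zero => rfl
  | succ T ih =>
    rw [Finset.sum_range_succ, ← ih]
    rfl

theorem sqs_pack {W n : ℕ} (hW : 29 ≤ W) {v : ℕ → ℕ} (hv : ∀ j < n, v j < 2 ^ 26)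
    (hn : n * 2 ^ 26 < 2 ^ W - 1) :
    sqs (pack W n (fun _ => 1)) (2 ^ W - 1) (pack W n v) 26 = ∑ j ∈ range n, v j ^ 2 := by
  have hWW : 2 ^ 26 ≤ 2 ^ W := Nat.pow_le_pow_right (by norm_num) (by omega)
  rw [sqs_eq]
  have h1 : ∀ t ∈ range 26, 2 ^ t * (vM (pack W n v)
      ((pack W n v >>> t) &&& pack W n (fun _ => 1)) % (2 ^ W - 1)) =
      ∑ j ∈ range n, v j * (2 ^ t * (v j / 2 ^ t % 2)) := by
    intro t ht
    have ht := Finset.mem_range.1 ht
    rw [bits_pack W n t _ (by omega)]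
    have e : pack W n (fun j => pack W n v / 2 ^ (W * j + t) % 2) =
        pack W n (fun j => v j / 2 ^ t % 2) := by
      apply pack_congr
      intro j hj
      rw [lane_bit (fun i hi => (hv i hi).trans_le hWW) hj (by omega)]
    rw [e, vM_pack (by omega) hv (fun j _ => Nat.mod_lt _ (by norm_num)), pack_mod_sum,
      Finset.mul_sum]
    · apply Finset.sum_congr rfl
      intro j _
      ring
    · refine lt_of_le_of_lt ?_ hn
      calc ∑ j ∈ range n, v j / 2 ^ t % 2 * v j ≤ ∑ _j ∈ range n, 2 ^ 26 := by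
            apply Finset.sum_le_sum
            intro j hj
            have h1 := hv j (Finset.mem_range.1 hj)
            have h2 : v j / 2 ^ t % 2 < 2 := Nat.mod_lt _ (by norm_num)
            calc v j / 2 ^ t % 2 * v j ≤ 1 * v j := Nat.mul_le_mul_right _ (by omega)
              _ ≤ 2 ^ 26 := by omega
        _ = n * 2 ^ 26 := by simp
  rw [Finset.sum_congr rfl h1, Finset.sum_comm]
  apply Finset.sum_congr rfl
  intro j hj
  rw [← Finset.mul_sum, sum_bits, Nat.mod_eq_of_lt (hv j (Finset.mem_range.1 hj)), sq]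

/-- Exponent of lane `j` at the start of a chunk. -/
def ex (K W n j : ℕ) : ℕ := K + W * (n - 1 - j)

variable {p q2 : ℕ} [Fact p.Prime]

theorem ysz_add (hs : 2 < p) (a b : ℕ) : ysz p (a + b) * 2 ^ b = ysz p a := by
  unfold ysz
  rw [pow_add, mul_assoc, ← mul_pow, inv_mul_cancel₀ (two_ne hs), one_pow, mul_one]

theorem wsum (hs : 2 < p) {K W n : ℕ} (i : ℕ) (f : ℕ → ℕ) :
    ysz p (ex K W n 0 + i) * ((pack W n f : ℕ) : ZMod p) =
      ∑ j ∈ range n, (f j : ZMod p) * ysz p (ex K W n j + i) := by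
  rw [pack_eq_sum]
  push_cast
  rw [Finset.mul_sum]
  apply Finset.sum_congr rfl
  intro j hj
  have hj := Finset.mem_range.1 hj
  have e : ex K W n 0 + i = (ex K W n j + i) + W * j := by
    unfold ex
    obtain ⟨d, rfl⟩ : ∃ d, n = j + 1 + d := ⟨n - (j + 1), by omega⟩
    have e1 : j + 1 + d - 1 - 0 = j + d := by omega
    have e2 : j + 1 + d - 1 - j = d := by omega
    rw [e1, e2]
    ring
  rw [e, ← ysz_add hs (ex K W n j + i) (W * j)]
  ring

theorem cb_sq (hp : 0 < p) (k : ℕ) : ((cb p k : ℕ) : ZMod p) ^ 2 = (cb p k : ℕ) := by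
  have := cb_lt hp k
  have h : cb p k = 0 ∨ cb p k = 1 := by omega
  rcases h with h | h <;> simp [h]

theorem phase3 {W n K BIG : ℕ} (hs : Size p q2 W) (hn : 0 < n)
    (fin : ℕ → ℕ → ℕ → ℕ → ℕ → ℕ → ℕ → Bool) (s : ℕ) :
    ∀ i, s + i = W → ∀ A1 A2 S1 S2 S3 : ℕ,
    (A1 : ZMod p) = ∑ j ∈ range n, qsz p q2 (ex K W n j + i) →
    (A2 : ZMod p) = ∑ j ∈ range n, qsz p q2 (ex K W n j + i) ^ 2 →
    loop p q2 n ((2 ^ K % p) * 2 ^ (W * n) / p) (pack W n (fun _ => 1))
      ((134217728 - p) * pack W n (fun _ => 1))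
      (q2 * pack W n (fun _ => 1)) (2 ^ W) BIG fin s
      (pack W n (fun j => yv p (ex K W n j + i)))
      (pack W n (fun j => qv p q2 (ex K W n j + i))) A1 A2 S1 S2 S3 = true →
    ∃ Yf Qf B1 B2 T1 T2 T3, fin Yf Qf B1 B2 T1 T2 T3 = true ∧
      (T1 : ZMod p) = S1 + ∑ t ∈ range s, ∑ j ∈ range n, qsz p q2 (ex K W n j + i + t) ∧
      (T2 : ZMod p) = S2 + ∑ t ∈ range s, ∑ j ∈ range n, qsz p q2 (ex K W n j + i + t) ^ 2 ∧
      (T3 : ZMod p) = S3 + ∑ t ∈ range s, ∑ j ∈ range n,
        qsz p q2 (ex K W n j + i + t) * ysz p (ex K W n j + i + t) := by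
  have hp2 := hs.pos
  have hW := hs.hW
  have hWW : 2 ^ 26 ≤ 2 ^ W := Nat.pow_le_pow_right (by norm_num) (by omega)
  have h26 := hs.lt26
  induction s with
  | zero =>
    intro i _ A1 A2 S1 S2 S3 _ _ h
    exact ⟨_, _, A1, A2, S1, S2, S3, h, by simp, by simp, by simp⟩
  | succ s ih =>
    intro i hi A1 A2 S1 S2 S3 hA1 hA2 h
    have h' := loop_succ _ _ _ _ _ _ _ _ _ _ _ _ _ _ _ _ _ _ h
    have eC : vC ((2 ^ K % p) * 2 ^ (W * n) / p) s (pack W n (fun _ => 1)) =
        pack W n (fun j => cb p (ex K W n j + i)) := by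
      refine (bits_pack W n s _ (by omega)).trans (pack_congr fun j hj => ?_)
      have := lbit_eq (p := p) (by omega) (W := W) (n := n) (K := K) (j := j) (s := s) hj
        (by omega)
      unfold lbit at this
      rw [this]
      unfold ex
      congr 1
      omega
    have eY := vY_pack (W := W) (n := n) hs.odd (by omega) hs.lt26
      (y := fun j => yv p (ex K W n j + i)) (fun j _ => yv_lt _)
    have eY2 : (fun j => yst p (yv p (ex K W n j + i))) =
        fun j => yv p (ex K W n j + (i + 1)) := by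
      funext j
      rw [yst_yv hs.odd hp2, add_assoc]
    rw [eY2] at eY
    have eQ := vQ_pack (W := W) (n := n) (p := p) (q2 := q2) hW (by omega)
      hs.lt27 hs.lt26 hs.q2lt (y := fun j => yv p (ex K W n j + (i + 1)))
      (b := fun j => cb p (ex K W n j + i)) (q := fun j => qv p q2 (ex K W n j + i))
      (fun j _ => yv_lt _) (fun j _ => cb_lt (by omega) _) (fun j _ => qv_lt _)
    have eQ2 : (fun j => qst p q2 (cb p (ex K W n j + i)) (yv p (ex K W n j + (i + 1)))
        (qv p q2 (ex K W n j + i))) = fun j => qv p q2 (ex K W n j + (i + 1)) := by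
      funext j
      rw [← add_assoc, qst_qv hp2]
    rw [eQ2] at eQ
    have eMQ := vM_pack (W := W) (n := n) (by omega) (x := fun j => qv p q2 (ex K W n j + i))
      (b := fun j => cb p (ex K W n j + i)) (fun j _ => (qv_lt _).trans h26)
      (fun j _ => cb_lt (by omega) _)
    have eMY := vM_pack (W := W) (n := n) (by omega)
      (x := fun j => yv p (ex K W n j + (i + 1)))
      (b := fun j => cb p (ex K W n j + i)) (fun j _ => (yv_lt _).trans h26)
      (fun j _ => cb_lt (by omega) _)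
    have m1 : pack W n (fun j => yv p (ex K W n j + (i + 1))) % 2 ^ W =
        yv p (ex K W n 0 + (i + 1)) :=
      pack_mod (v := fun j => yv p (ex K W n j + (i + 1))) hn
        (((yv_lt _).trans h26).trans_le hWW)
    have m0 : pack W n (fun j => yv p (ex K W n j + i)) % 2 ^ W =
        yv p (ex K W n 0 + i) :=
      pack_mod (v := fun j => yv p (ex K W n j + i)) hn
        (((yv_lt _).trans h26).trans_le hWW)
    rw [eC, eY, eQ, eMQ, eMY, m1, m0] at h'
    have w1 := wsum (p := p) hp2 (K := K) (W := W) (n := n) (i + 1)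
      (fun j => cb p (ex K W n j + i))
    have w2 := wsum (p := p) hp2 (K := K) (W := W) (n := n) (i + 1)
      (fun j => cb p (ex K W n j + i) * qv p q2 (ex K W n j + i))
    have w3 := wsum (p := p) hp2 (K := K) (W := W) (n := n) (i + 1)
      (fun j => cb p (ex K W n j + i) * yv p (ex K W n j + (i + 1)))
    have w4 := wsum (p := p) hp2 (K := K) (W := W) (n := n) i
      (fun j => qv p q2 (ex K W n j + i))
    have hstep : ∀ j, qsz p q2 (ex K W n j + (i + 1)) = qsz p q2 (ex K W n j + i) + q2 +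
        cb p (ex K W n j + i) * ysz p (ex K W n j + (i + 1)) := by
      intro j
      rw [← add_assoc, qsz_succ hp2]
    have g1 : (((A1 + n * q2 + yv p (ex K W n 0 + (i + 1)) *
        (pack W n (fun j => cb p (ex K W n j + i)) % p)) % p : ℕ) : ZMod p) =
        ∑ j ∈ range n, qsz p q2 (ex K W n j + (i + 1)) := by
      rw [ZMod.natCast_mod]
      push_cast
      rw [ZMod.natCast_mod, cast_yv, w1, hA1]
      simp only [hstep, Finset.sum_add_distrib, Finset.sum_const, Finset.card_range,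
        nsmul_eq_mul]
    have g2 : (((A2 + q2 * (2 * A1 + n * q2) + yv p (ex K W n 0 + (i + 1)) *
        (2 * (q2 * (pack W n (fun j => cb p (ex K W n j + i)) % p) +
          pack W n (fun j => cb p (ex K W n j + i) * qv p q2 (ex K W n j + i)) % p) +
        pack W n (fun j => cb p (ex K W n j + i) * yv p (ex K W n j + (i + 1))) % p)) % p : ℕ) :
        ZMod p) = ∑ j ∈ range n, qsz p q2 (ex K W n j + (i + 1)) ^ 2 := by
      rw [ZMod.natCast_mod]
      push_cast
      rw [ZMod.natCast_mod, ZMod.natCast_mod, ZMod.natCast_mod, cast_yv, hA1, hA2]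
      have e2 : ∀ (x c g h : ZMod p), x * (2 * ((q2 : ZMod p) * c + g) + h) =
          2 * q2 * (x * c) + 2 * (x * g) + x * h := by intros; ring
      rw [e2, w1, w2, w3]
      push_cast
      simp only [hstep, cast_qv, cast_yv]
      rw [mul_add, Finset.mul_sum, Finset.mul_sum, Finset.mul_sum, Finset.mul_sum]
      have e3 : (q2 : ZMod p) * ((n : ZMod p) * q2) = ∑ j ∈ range n, (q2 : ZMod p) ^ 2 := by
        simp; ring
      rw [e3]
      simp only [← Finset.sum_add_distrib]
      apply Finset.sum_congr rfl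
      intro j _
      have hc := cb_sq (p := p) (by omega) (ex K W n j + i)
      linear_combination (-(ysz p (ex K W n j + (i + 1))) ^ 2) * hc
    obtain ⟨Yf, Qf, B1, B2, T1, T2, T3, hf, hT1, hT2, hT3⟩ :=
      ih (i + 1) (by omega) _ _ _ _ _ g1 g2 h'
    refine ⟨Yf, Qf, B1, B2, T1, T2, T3, hf, ?_, ?_, ?_⟩
    · rw [hT1, Finset.sum_range_succ', ZMod.natCast_mod]
      push_cast
      rw [hA1]
      have : ∀ t j, ex K W n j + (i + 1) + t = ex K W n j + i + (t + 1) := by
        intro t j; ring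
      simp only [this, add_zero]
      ring
    · rw [hT2, Finset.sum_range_succ', ZMod.natCast_mod]
      push_cast
      rw [hA2]
      have : ∀ t j, ex K W n j + (i + 1) + t = ex K W n j + i + (t + 1) := by
        intro t j; ring
      simp only [this, add_zero]
      ring
    · rw [hT3, Finset.sum_range_succ', ZMod.natCast_mod]
      push_cast
      rw [ZMod.natCast_mod, cast_yv, w4]
      have : ∀ t j, ex K W n j + (i + 1) + t = ex K W n j + i + (t + 1) := by
        intro t j; ring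
      simp only [this, add_zero, cast_qv]
      ring

end Pool.Agent.H301L
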