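import Pool.Agent.H301L.Chunk

/-!
Fermat quotients, and a criterion modulo `p` for divisibility by `p ^ 3` of the Lerch sum.
-/

namespace Pool.Agent.H301L

open Finset

theorem prod_expand (p : ℤ) (F : ℕ → ℤ) (s : Finset ℕ) :
    ∃ R : ℤ, 2 * ∏ a ∈ s, (1 + p * F a) =
      2 + 2 * p * (∑ a ∈ s, F a) + p ^ 2 * ((∑ a ∈ s, F a) ^ 2 - ∑ a ∈ s, F a ^ 2) + p ^ 3 * R := by
  induction s using Finset.induction_on with
  | empty => exact ⟨0, by simp⟩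
  | insert a s ha ih =>
    obtain ⟨R, hR⟩ := ih
    rw [Finset.prod_insert ha, Finset.sum_insert ha, Finset.sum_insert ha]
    refine ⟨R + p * F a * R + F a * ((∑ a ∈ s, F a) ^ 2 - ∑ a ∈ s, F a ^ 2), ?_⟩
    linear_combination (1 + p * F a) * hR

theorem pow_expand (x : ℤ) (m : ℕ) :
    ∃ R : ℤ, 2 * (1 - x) ^ m = 2 - 2 * m * x + m * (m - 1) * x ^ 2 + x ^ 3 * R := by
  induction m with
  | zero => exact ⟨0, by simp⟩
  | succ m ih =>
    obtain ⟨R, hR⟩ := ih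
    refine ⟨R * (1 - x) - m * (m - 1), ?_⟩
    rw [pow_succ]
    push_cast
    linear_combination (1 - x) * hR

theorem prod_cast_factorial (m : ℕ) : ∏ a ∈ Icc 1 m, (a : ℤ) = (m.factorial : ℤ) := by
  induction m with
  | zero => simp
  | succ m ih =>
    rw [← Finset.insert_Icc_right_eq_Icc_add_one (by omega : 1 ≤ m + 1), Finset.prod_insert (by simp), ih,
      Nat.factorial_succ]
    push_cast
    ring

/-- The criterion. -/
theorem lerch_criterion {p : ℕ} [hp : Fact p.Prime] (hp2 : 2 < p) (F : ℕ → ℤ)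
    (hF : ∀ a ∈ Icc 1 (p - 1), (a : ℤ) ^ (p - 1) = 1 + p * F a)
    (hc : ((∑ a ∈ Icc 1 (p - 1), F a ^ 2 : ℤ) : ZMod p) +
      ((∑ a ∈ Icc 1 (p - 1), F a : ℤ) : ZMod p) ^ 2 -
      2 * ((∑ a ∈ Icc 1 (p - 1), F a : ℤ) : ZMod p) = 0) :
    (p : ℤ) ^ 3 ∣ (∑ a ∈ Icc 1 (p - 1), (a : ℤ) ^ (p - 1)) - p - ((p - 1).factorial : ℤ) := by
  set S1 := ∑ a ∈ Icc 1 (p - 1), F a with hS1
  set S2 := ∑ a ∈ Icc 1 (p - 1), F a ^ 2 with hS2
  have hp0 : (p : ℤ) ≠ 0 := by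
    have := hp.out.pos
    exact_mod_cast this.ne'
  have hwil : ((((p - 1).factorial : ℤ) + 1 : ℤ) : ZMod p) = 0 := by
    push_cast
    rw [ZMod.wilsons_lemma]
    ring
  rw [ZMod.intCast_zmod_eq_zero_iff_dvd] at hwil
  obtain ⟨w, hw⟩ := hwil
  have hodd : p % 2 = 1 := by
    rcases hp.out.eq_two_or_odd with h | h
    · omega
    · exact h
  have heven : Even (p - 1) := ⟨(p - 1) / 2, by omega⟩
  have hprod : ∏ a ∈ Icc 1 (p - 1), (1 + (p : ℤ) * F a) = (1 - p * w) ^ (p - 1) := by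
    have h1 : ∏ a ∈ Icc 1 (p - 1), (1 + (p : ℤ) * F a) =
        ∏ a ∈ Icc 1 (p - 1), (a : ℤ) ^ (p - 1) :=
      Finset.prod_congr rfl fun a ha => (hF a ha).symm
    rw [h1, Finset.prod_pow]
    rw [prod_cast_factorial]
    have h3 : ((p - 1).factorial : ℤ) = -(1 - p * w) := by linarith
    rw [h3, heven.neg_pow]
  obtain ⟨R, hR⟩ := prod_expand (p : ℤ) F (Icc 1 (p - 1))
  obtain ⟨R', hR'⟩ := pow_expand ((p : ℤ) * w) (p - 1)
  rw [hprod, hR', ← hS1, ← hS2] at hR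
  have hcast : ((p - 1 : ℕ) : ℤ) = (p : ℤ) - 1 := by
    rw [Nat.cast_sub hp.out.one_lt.le]; simp
  rw [hcast] at hR
  have h1 : 2 * (S1 - w) = p * (-2 * w - (S1 ^ 2 - S2) + (p - 1) * (p - 2) * w ^ 2 +
      p * (w ^ 3 * R' - R)) := by
    apply mul_left_cancel₀ hp0
    linear_combination -hR
  have hcop : IsCoprime (p : ℤ) 2 := by
    have : Nat.Coprime p 2 := Nat.coprime_two_right.2 (Nat.odd_iff.2 hodd)
    exact_mod_cast Nat.isCoprime_iff_coprime.2 this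
  have h2 : (p : ℤ) ∣ S1 - w := hcop.dvd_of_dvd_mul_left ⟨_, h1⟩
  obtain ⟨d, hd⟩ := h2
  have h3 : 2 * d = -2 * w - (S1 ^ 2 - S2) + (p - 1) * (p - 2) * w ^ 2 +
      p * (w ^ 3 * R' - R) := by
    apply mul_left_cancel₀ hp0
    linear_combination h1 - 2 * hd
  have h4 : (p : ℤ) ∣ 2 * d := by
    rw [← ZMod.intCast_zmod_eq_zero_iff_dvd, h3]
    have hwS : (w : ZMod p) = S1 := by
      have : ((S1 - w : ℤ) : ZMod p) = 0 := by
        rw [ZMod.intCast_zmod_eq_zero_iff_dvd]; exact ⟨d, hd⟩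
      push_cast at this
      linear_combination -this
    push_cast
    simp only [CharP.cast_eq_zero, zero_mul, add_zero, hwS]
    linear_combination hc
  have h5 : (p : ℤ) ∣ d := hcop.dvd_of_dvd_mul_left h4
  obtain ⟨e, he⟩ := h5
  have hsum : ∑ a ∈ Icc 1 (p - 1), (a : ℤ) ^ (p - 1) = (p - 1) + p * S1 := by
    rw [Finset.sum_congr rfl hF, Finset.sum_add_distrib, ← Finset.mul_sum, ← hS1,
      Finset.sum_const, Nat.card_Icc, Nat.add_sub_cancel, nsmul_eq_mul, mul_one, hcast]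
  refine ⟨e, ?_⟩
  rw [hsum]
  linear_combination p * hd + p ^ 2 * he - hw

/-- The Fermat quotient of an integer. -/
def Fq (p : ℕ) (a : ℤ) : ℤ := (a ^ (p - 1) - 1) / p

section fq

variable {p : ℕ} [hp : Fact p.Prime]

theorem Fq_spec {a : ℤ} (ha : (a : ZMod p) ≠ 0) : a ^ (p - 1) = 1 + p * Fq p a := by
  have h : (p : ℤ) ∣ a ^ (p - 1) - 1 := by
    rw [← ZMod.intCast_zmod_eq_zero_iff_dvd]
    push_cast
    rw [ZMod.pow_card_sub_one_eq_one ha, sub_self]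
  unfold Fq
  rw [Int.mul_ediv_cancel' h]
  ring

theorem Fq_eq {a x : ℤ} (h : ∃ r : ℤ, a ^ (p - 1) = 1 + p * x + p ^ 2 * r) :
    (Fq p a : ZMod p) = x := by
  obtain ⟨r, hr⟩ := h
  have hp0 : (p : ℤ) ≠ 0 := by
    have := hp.out.pos
    exact_mod_cast this.ne'
  have : a ^ (p - 1) - 1 = p * (x + p * r) := by rw [hr]; ring
  unfold Fq
  rw [this, Int.mul_ediv_cancel_left _ hp0]
  push_cast
  simp

theorem Fq_mul {a b : ℤ} (ha : (a : ZMod p) ≠ 0) (hb : (b : ZMod p) ≠ 0) :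
    (Fq p (a * b) : ZMod p) = Fq p a + Fq p b := by
  have := Fq_eq (p := p) (a := a * b) (x := Fq p a + Fq p b)
    ⟨Fq p a * Fq p b, by rw [mul_pow, Fq_spec ha, Fq_spec hb]; ring⟩
  rw [this]
  push_cast
  rfl

theorem add_pow_expand (a x : ℤ) (m : ℕ) :
    ∃ r : ℤ, (a + x) ^ (m + 1) = a ^ (m + 1) + (m + 1) * a ^ m * x + x ^ 2 * r := by
  induction m with
  | zero => exact ⟨0, by simp⟩
  | succ m ih =>
    obtain ⟨r, hr⟩ := ih
    refine ⟨r * (a + x) + (m + 1) * a ^ m, ?_⟩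
    rw [pow_succ (a + x), hr]
    push_cast
    ring

theorem Fq_add {a t : ℤ} (ha : (a : ZMod p) ≠ 0) :
    (Fq p (a + p * t) : ZMod p) = Fq p a - t * (a : ZMod p)⁻¹ := by
  have h2 : 2 ≤ p := hp.out.two_le
  obtain ⟨r, hr⟩ := add_pow_expand a (p * t) (p - 2)
  have e : p - 2 + 1 = p - 1 := by omega
  rw [e] at hr
  have hc : ((p - 2 : ℕ) : ℤ) = p - 2 := by rw [Nat.cast_sub h2]; simp
  rw [hc, Fq_spec ha] at hr
  have := Fq_eq (p := p) (a := a + p * t) (x := Fq p a - a ^ (p - 2) * t)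
    ⟨t ^ 2 * r + a ^ (p - 2) * t, by rw [hr]; ring⟩
  rw [this]
  push_cast
  have hinv : (a : ZMod p) ^ (p - 2) = (a : ZMod p)⁻¹ := by
    apply eq_inv_of_mul_eq_one_left
    rw [← pow_succ, e, ZMod.pow_card_sub_one_eq_one ha]
  rw [hinv]
  ring

theorem Fq_neg (hodd : p % 2 = 1) (a : ℤ) : Fq p (-a) = Fq p a := by
  have heven : Even (p - 1) := ⟨(p - 1) / 2, by omega⟩
  unfold Fq
  rw [heven.neg_pow]

theorem Fq_one : (Fq p 1 : ZMod p) = 0 := by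
  unfold Fq
  simp

theorem Fq_two_pow (hp2 : 2 < p) (k : ℕ) : (Fq p (2 ^ k) : ZMod p) = k * (Fq p 2 : ZMod p) := by
  have h2 : (((2 : ℤ)) : ZMod p) ≠ 0 := by exact_mod_cast two_ne hp2
  induction k with
  | zero => simpa using Fq_one
  | succ k ih =>
    rw [pow_succ, Fq_mul (by push_cast; exact pow_ne_zero _ (two_ne hp2)) h2, ih]
    push_cast
    ring

theorem Fq_mod (hp2 : 2 < p) {q2 : ℕ} (hq : (Fq p 2 : ZMod p) = q2) (k : ℕ) :
    (Fq p ((2 ^ k % p : ℕ) : ℤ) : ZMod p) = qsz p q2 k := by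
  have ha : (((2 ^ k % p : ℕ) : ℤ) : ZMod p) = 2 ^ k := by
    rw [Int.cast_natCast, ZMod.natCast_mod]
    push_cast
    rfl
  have hne : (((2 ^ k % p : ℕ) : ℤ) : ZMod p) ≠ 0 := by
    rw [ha]; exact pow_ne_zero _ (two_ne hp2)
  have h := Fq_add (p := p) (a := ((2 ^ k % p : ℕ) : ℤ)) (t := ((2 ^ k / p : ℕ) : ℤ)) hne
  have e : ((2 ^ k % p : ℕ) : ℤ) + p * ((2 ^ k / p : ℕ) : ℤ) = 2 ^ k := by
    exact_mod_cast Nat.mod_add_div (2 ^ k) p
  rw [e, Fq_two_pow hp2, hq, ha, Int.cast_natCast] at h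
  unfold qsz
  rw [inv_pow]
  linear_combination -h

theorem Fq_compl (hodd : p % 2 = 1) (hp2 : 2 < p) {q2 : ℕ} (hq : (Fq p 2 : ZMod p) = q2)
    (k : ℕ) : (Fq p ((p - 2 ^ k % p : ℕ) : ℤ) : ZMod p) = qsz p q2 k + ysz p k := by
  have ha : (((2 ^ k % p : ℕ) : ℤ) : ZMod p) = 2 ^ k := by
    rw [Int.cast_natCast, ZMod.natCast_mod]
    push_cast
    rfl
  have hne : ((-((2 ^ k % p : ℕ) : ℤ) : ℤ) : ZMod p) ≠ 0 := by
    rw [Int.cast_neg, ha]; exact neg_ne_zero.2 (pow_ne_zero _ (two_ne hp2))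
  have h := Fq_add (p := p) (a := -((2 ^ k % p : ℕ) : ℤ)) (t := 1) hne
  have e : -((2 ^ k % p : ℕ) : ℤ) + p * 1 = ((p - 2 ^ k % p : ℕ) : ℤ) := by
    rw [Nat.cast_sub (Nat.mod_lt _ (by omega)).le]
    ring
  rw [e, Fq_neg hodd, Fq_mod hp2 hq, Int.cast_neg, ha] at h
  rw [h]
  unfold ysz
  rw [inv_pow, inv_neg]
  push_cast
  ring

end fq

end Pool.Agent.H301L
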